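import Mathlib
import Pool.Agent.DisjTrans.Walkers

/-!
The loop-erasure lemma of `Pool.Agent.DisjTrans.Walkers` with owners: if there are at least as many
rows as columns, then every walker closes a loop.
-/

namespace Pool.Agent.Drisko49

open Finset Pool.Agent.DisjTrans

set_option linter.unusedSectionVars false

variable {R J : Type*} [DecidableEq R] [DecidableEq J]

/-- The loop-erasure lemma with owners. -/
theorem walkers_owner [Fintype J] (nxt : R → J → Option J) (L : Finset R)
    (hinj : ∀ r ∈ L, ∀ v v' i, nxt r v = some i → nxt r v' = some i → v = v') :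
    ∃ (Z : R → J → Finset (R × J)) (P : J → List (R × J)),
      (∀ v, ∃ s, IsSeg nxt s v (P v)) ∧
      (∀ r v, Closed nxt (Z r v)) ∧
      (∀ r v, ∀ e ∈ Z r v, r ∈ L) ∧
      (∀ r v, ∀ e ∈ Z r v, e.1 ∈ L) ∧
      (∀ v, ∀ e ∈ P v, e.1 ∈ L) ∧
      (∀ r ∈ L, ∀ j, (∃ r' v', (r, j) ∈ Z r' v') ∨ ∃ v, (r, j) ∈ P v) ∧
      (∀ r v r' v' e, e ∈ Z r v → e ∈ Z r' v' → (r = r' ∧ v = v')) ∧
      (∀ v v' e, e ∈ P v → e ∈ P v' → v = v') ∧
      (∀ r v v' e, e ∈ Z r v → e ∉ P v') ∧
      ∃ o : J → Option (R × J), (∀ v p, o v = some p → (Z p.1 p.2).Nonempty) ∧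
        (∀ v, o v = none → (P v).length = L.card) ∧
        (∀ v v' p, o v = some p → o v' = some p → v = v') := by
  classical
  induction L using Finset.induction_on with
  | empty =>
    refine ⟨fun _ _ => ∅, fun _ => [], ?_, ?_, ?_, ?_, ?_, ?_, ?_, ?_, ?_, fun _ => none,
      ?_, ?_, ?_⟩
    · intro v
      exact ⟨v, IsSeg.nil⟩
    · intro r v
      exact closed_empty nxt
    all_goals simp
  | insert r0 L hr0 ih =>
    obtain ⟨Z, P, hP, hZ, hZL', hZL, hPL, hcov, hZZ, hPP, hZP, o, ho1, ho2, ho3⟩ :=
      ih (fun r hr => hinj r (mem_insert_of_mem hr))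
    have hr0P : ∀ v, r0 ∉ (P v).map Prod.fst := by
      intro v hh
      obtain ⟨e, he, he2⟩ := List.mem_map.mp hh
      apply hr0
      rw [← he2]
      exact hPL v e he
    have hstep : ∀ v, ∃ (Q : List (R × J)) (Z : Finset (R × J)),
        (∀ w, nxt r0 v = some w → ∃ s', IsSeg nxt s' w Q) ∧
        (nxt r0 v = none → Q = []) ∧ Closed nxt Z ∧
        (∀ e, (e ∈ Z ∨ e ∈ Q) ↔ (e = (r0, v) ∨ e ∈ P v)) ∧
        (∀ e ∈ Z, e ∉ Q) := by
      intro v
      obtain ⟨s, hs⟩ := hP v
      exact hs.step (hr0P v)
    choose Q Z0 hQ1 hQ2 hZ0 hQZ hZQ using hstep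
    have hinj0 := hinj r0 (mem_insert_self _ _)
    let Z' : R → J → Finset (R × J) := fun r v => if r = r0 then Z0 v else Z r v
    let P' : J → List (R × J) := fun w => if h : ∃ v, nxt r0 v = some w then Q h.choose else []
    have hP'1 : ∀ v w, nxt r0 v = some w → P' w = Q v := by
      intro v w hvw
      have h : ∃ v, nxt r0 v = some w := ⟨v, hvw⟩
      have : h.choose = v := hinj0 _ _ w h.choose_spec hvw
      simp only [P', dif_pos h, this]
    have hP'2 : ∀ w e, e ∈ P' w → ∃ v, nxt r0 v = some w ∧ e ∈ Q v := by
      intro w e he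
      by_cases h : ∃ v, nxt r0 v = some w
      · obtain ⟨v, hv⟩ := h
        rw [hP'1 v w hv] at he
        exact ⟨v, hv, he⟩
      · simp only [P', dif_neg h] at he
        simp at he
    have hZ'0 : ∀ v, Z' r0 v = Z0 v := by
      intro v
      simp [Z']
    have hZ'1 : ∀ r v, r ≠ r0 → Z' r v = Z r v := by
      intro r v hr
      simp [Z', hr]
    have hZr0 : ∀ v, Z r0 v = ∅ := by
      intro v
      rw [Finset.eq_empty_iff_forall_notMem]
      intro e he
      exact hr0 (hZL' r0 v e he)
    have mem_of_Z0 : ∀ v e, e ∈ Z0 v → (e = (r0, v) ∨ e ∈ P v) := fun v e he =>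
      (hQZ v e).mp (Or.inl he)
    have mem_of_Q : ∀ v e, e ∈ Q v → (e = (r0, v) ∨ e ∈ P v) := fun v e he =>
      (hQZ v e).mp (Or.inr he)
    have hvv : ∀ v v' e, (e = (r0, v) ∨ e ∈ P v) → (e = (r0, v') ∨ e ∈ P v') → v = v' := by
      rintro v v' e (rfl | h1) (h2 | h2)
      · exact congrArg Prod.snd h2
      · exact absurd (hPL v' _ h2) hr0
      · subst h2
        exact absurd (hPL v _ h1) hr0
      · exact hPP v v' e h1 h2
    have hZold : ∀ r v v' e, e ∈ Z r v → (e = (r0, v') ∨ e ∈ P v') → False := by
      rintro r v v' e h1 (rfl | h2)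
      · exact hr0 (hZL r v _ h1)
      · exact hZP r v v' e h1 h2
    -- owners: a walker that leaves the board restarts at a column that is not hit
    have hcard : (univ.filter (fun w => ¬ ∃ v, nxt r0 v = some w)).card ≤
        (univ.filter (fun v => nxt r0 v = none)).card := by
      have h1 : (univ.filter (fun v => ¬ nxt r0 v = none)).card ≤
          (univ.filter (fun w => ∃ v, nxt r0 v = some w)).card := by
        have hget : ∀ v, ∃ w, nxt r0 v ≠ none → nxt r0 v = some w := by
          intro v
          rcases h : nxt r0 v with _ | w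
          · exact ⟨v, fun hh => absurd rfl hh⟩
          · exact ⟨w, fun _ => rfl⟩
        choose g hg using hget
        refine Finset.card_le_card_of_injOn g ?_ ?_
        · intro v hv
          have hv' := (Finset.mem_filter.1 (Finset.mem_coe.1 hv)).2
          exact Finset.mem_coe.2 (Finset.mem_filter.2 ⟨mem_univ _, v, hg v hv'⟩)
        · intro v hv v' hv' hvv'
          have h2 := (Finset.mem_filter.1 (Finset.mem_coe.1 hv)).2
          have h3 := (Finset.mem_filter.1 (Finset.mem_coe.1 hv')).2
          exact hinj0 v v' (g v) (hg v h2) (by rw [hg v' h3, hvv'])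
      have h4 := Finset.card_filter_add_card_filter_not (s := (univ : Finset J))
        (fun v => nxt r0 v = none)
      have h5 := Finset.card_filter_add_card_filter_not (s := (univ : Finset J))
        (fun w => ∃ v, nxt r0 v = some w)
      omega
    obtain ⟨ε0⟩ := Function.Embedding.nonempty_of_card_le
      (α := {w // w ∈ univ.filter (fun w => ¬ ∃ v, nxt r0 v = some w)})
      (β := {v // v ∈ univ.filter (fun v => nxt r0 v = none)})
      (by rw [Fintype.card_coe, Fintype.card_coe]; exact hcard)
    let ε : J → J := fun w => if h : ¬ ∃ v, nxt r0 v = some w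
      then (ε0 ⟨w, mem_filter.2 ⟨mem_univ _, h⟩⟩).1 else w
    have hε1 : ∀ w, (¬ ∃ v, nxt r0 v = some w) → nxt r0 (ε w) = none := by
      intro w h
      simp only [ε, dif_pos h]
      exact (mem_filter.1 (ε0 ⟨w, mem_filter.2 ⟨mem_univ _, h⟩⟩).2).2
    have hε2 : ∀ w w', (¬ ∃ v, nxt r0 v = some w) → (¬ ∃ v, nxt r0 v = some w') → ε w = ε w' →
        w = w' := by
      intro w w' h h' he
      simp only [ε, dif_pos h, dif_pos h'] at he
      have := ε0.injective (Subtype.ext he)
      exact congrArg Subtype.val this
    have hZexit : ∀ v, nxt r0 v = none → (Z0 v).Nonempty := by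
      intro v hv
      rcases (hQZ v (r0, v)).mpr (Or.inl rfl) with h | h
      · exact ⟨_, h⟩
      · rw [hQ2 v hv] at h
        simp at h
    let o' : J → Option (R × J) := fun w => if h : ∃ v, nxt r0 v = some w
      then (if (Z0 h.choose).Nonempty then some (r0, h.choose) else o h.choose)
      else some (r0, ε w)
    have ho'1 : ∀ v w, nxt r0 v = some w →
        o' w = if (Z0 v).Nonempty then some (r0, v) else o v := by
      intro v w hvw
      have h : ∃ v, nxt r0 v = some w := ⟨v, hvw⟩
      have : h.choose = v := hinj0 _ _ w h.choose_spec hvw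
      simp only [o', dif_pos h, this]
    have ho'2 : ∀ w, (¬ ∃ v, nxt r0 v = some w) → o' w = some (r0, ε w) := by
      intro w h
      simp only [o', dif_neg h]
    have hoL : ∀ v p, o v = some p → p.1 ≠ r0 := by
      intro v p hp hpr
      obtain ⟨e, he⟩ := ho1 v p hp
      rw [hpr] at he
      exact hr0 (hZL' r0 p.2 e he)
    refine ⟨Z', P', ?_, ?_, ?_, ?_, ?_, ?_, ?_, ?_, ?_, o', ?_, ?_, ?_⟩
    · intro w
      by_cases h : ∃ v, nxt r0 v = some w
      · obtain ⟨v, hv⟩ := h
        rw [hP'1 v w hv]
        exact hQ1 v w hv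
      · refine ⟨w, ?_⟩
        simp only [P', dif_neg h]
        exact IsSeg.nil
    · intro r v
      by_cases hr : r = r0
      · subst hr
        rw [hZ'0]
        exact hZ0 v
      · rw [hZ'1 r v hr]
        exact hZ r v
    · intro r v e he
      by_cases hr : r = r0
      · rw [hr]
        exact mem_insert_self _ _
      · rw [hZ'1 r v hr] at he
        exact mem_insert_of_mem (hZL' r v e he)
    · intro r v e he
      by_cases hr : r = r0
      · subst hr
        rw [hZ'0] at he
        rcases mem_of_Z0 v e he with rfl | he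
        · exact mem_insert_self _ _
        · exact mem_insert_of_mem (hPL v e he)
      · rw [hZ'1 r v hr] at he
        exact mem_insert_of_mem (hZL r v e he)
    · intro w e he
      obtain ⟨v, -, hv⟩ := hP'2 w e he
      rcases mem_of_Q v e hv with rfl | he
      · exact mem_insert_self _ _
      · exact mem_insert_of_mem (hPL v e he)
    · intro r hr j
      have aux : ∀ v, (r, j) = (r0, v) ∨ (r, j) ∈ P v →
          (∃ r' v', (r, j) ∈ Z' r' v') ∨ ∃ v, (r, j) ∈ P' v := by
        intro v hv
        rcases (hQZ v (r, j)).mpr hv with hv | hv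
        · left
          refine ⟨r0, v, ?_⟩
          rw [hZ'0]
          exact hv
        · right
          rcases hn : nxt r0 v with _ | w
          · rw [hQ2 v hn] at hv
            simp at hv
          · refine ⟨w, ?_⟩
            rw [hP'1 v w hn]
            exact hv
      rw [mem_insert] at hr
      rcases hr with rfl | hr
      · exact aux j (Or.inl rfl)
      · rcases hcov r hr j with ⟨r', v', h⟩ | ⟨v, h⟩
        · left
          refine ⟨r', v', ?_⟩
          rw [hZ'1]
          · exact h
          · rintro rfl
            exact hr0 (hZL' r' v' _ h)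
        · exact aux v (Or.inr h)
    · intro r v r' v' e he he'
      by_cases hr : r = r0
      · by_cases hr' : r' = r0
        · subst hr
          subst hr'
          rw [hZ'0] at he he'
          exact ⟨rfl, hvv v v' e (mem_of_Z0 v e he) (mem_of_Z0 v' e he')⟩
        · subst hr
          rw [hZ'0] at he
          rw [hZ'1 r' v' hr'] at he'
          exact (hZold r' v' v e he' (mem_of_Z0 v e he)).elim
      · by_cases hr' : r' = r0
        · subst hr'
          rw [hZ'0] at he'
          rw [hZ'1 r v hr] at he
          exact (hZold r v v' e he (mem_of_Z0 v' e he')).elim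
        · rw [hZ'1 r v hr] at he
          rw [hZ'1 r' v' hr'] at he'
          exact hZZ r v r' v' e he he'
    · intro w w' e he he'
      obtain ⟨v, hv, hve⟩ := hP'2 w e he
      obtain ⟨v', hv', hve'⟩ := hP'2 w' e he'
      have := hvv v v' e (mem_of_Q v e hve) (mem_of_Q v' e hve')
      subst this
      rw [hv] at hv'
      simpa using hv'
    · intro r v w e he he'
      obtain ⟨v', hv', hve'⟩ := hP'2 w e he'
      by_cases hr : r = r0
      · subst hr
        rw [hZ'0] at he
        have := hvv v v' e (mem_of_Z0 v e he) (mem_of_Q v' e hve')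
        subst this
        exact hZQ v e he hve'
      · rw [hZ'1 r v hr] at he
        exact hZold r v v' e he (mem_of_Q v' e hve')
    · intro w p hp
      by_cases h : ∃ v, nxt r0 v = some w
      · obtain ⟨v, hv⟩ := h
        rw [ho'1 v w hv] at hp
        split_ifs at hp with hne
        · have hp' : (r0, v) = p := Option.some.inj hp
          rw [← hp', hZ'0]
          exact hne
        · rw [hZ'1 p.1 p.2 (hoL v p hp)]
          exact ho1 v p hp
      · rw [ho'2 w h] at hp
        have hp' : (r0, ε w) = p := Option.some.inj hp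
        rw [← hp', hZ'0]
        exact hZexit _ (hε1 w h)
    · intro w hw
      by_cases h : ∃ v, nxt r0 v = some w
      · obtain ⟨v, hv⟩ := h
        rw [ho'1 v w hv] at hw
        split_ifs at hw with hne
        have hlen := ho2 v hw
        have hZe : Z0 v = ∅ := Finset.not_nonempty_iff_eq_empty.1 hne
        rw [hP'1 v w hv, card_insert_of_notMem hr0, ← hlen]
        obtain ⟨s', hs'⟩ := hQ1 v w hv
        obtain ⟨s, hs⟩ := hP v
        have hQf : (Q v).toFinset = insert (r0, v) (P v).toFinset := by
          ext e
          rw [List.mem_toFinset, mem_insert, List.mem_toFinset, ← hQZ v e, hZe]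
          simp
        have h1 : (Q v).toFinset.card = (Q v).length := List.toFinset_card_of_nodup hs'.nodup
        have h2 : (P v).toFinset.card = (P v).length := List.toFinset_card_of_nodup hs.nodup
        rw [← h1, ← h2, hQf, card_insert_of_notMem]
        rw [List.mem_toFinset]
        intro hh
        exact hr0 (hPL v _ hh)
      · rw [ho'2 w h] at hw
        simp at hw
    · intro w w' p hp hp'
      by_cases h : ∃ v, nxt r0 v = some w
      · obtain ⟨v, hv⟩ := h
        rw [ho'1 v w hv] at hp
        by_cases h' : ∃ v, nxt r0 v = some w'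
        · obtain ⟨v', hv'⟩ := h'
          rw [ho'1 v' w' hv'] at hp'
          have hvv' : v = v' := by
            split_ifs at hp hp' with h1 h2 h2
            · exact congrArg Prod.snd (Option.some.inj (hp.trans hp'.symm))
            · exact absurd (congrArg Prod.fst (Option.some.inj hp)).symm (hoL v' p hp')
            · exact absurd (congrArg Prod.fst (Option.some.inj hp')).symm (hoL v p hp)
            · exact ho3 v v' p hp hp'
          subst hvv'
          exact Option.some.inj (hv.symm.trans hv')
        · rw [ho'2 w' h'] at hp'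
          have h3 : (r0, ε w') = p := Option.some.inj hp'
          split_ifs at hp with h1
          · have h4 : (r0, v) = p := Option.some.inj hp
            have h5 : ε w' = v := congrArg Prod.snd (h3.trans h4.symm)
            have h6 := hε1 w' h'
            rw [h5, hv] at h6
            simp at h6
          · exact absurd (congrArg Prod.fst h3).symm (hoL v p hp)
      · rw [ho'2 w h] at hp
        have h3 : (r0, ε w) = p := Option.some.inj hp
        by_cases h' : ∃ v, nxt r0 v = some w'
        · obtain ⟨v', hv'⟩ := h'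
          rw [ho'1 v' w' hv'] at hp'
          split_ifs at hp' with h1
          · have h4 : (r0, v') = p := Option.some.inj hp'
            have h5 : ε w = v' := congrArg Prod.snd (h3.trans h4.symm)
            have h6 := hε1 w h
            rw [h5, hv'] at h6
            simp at h6
          · exact absurd (congrArg Prod.fst h3).symm (hoL v' p hp')
        · rw [ho'2 w' h'] at hp'
          have h4 : (r0, ε w') = p := Option.some.inj hp'
          exact hε2 w w' h h' (congrArg Prod.snd (h3.trans h4.symm))

/-- Packaged form of the loop-erasure lemma, with the coverage count, and with one closed set for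
every column if there are at least as many rows as columns. -/
theorem exists_closed_family_owner [Fintype J] (nxt : R → J → Option J) (L : Finset R)
    (hinj : ∀ r ∈ L, ∀ v v' i, nxt r v = some i → nxt r v' = some i → v = v') :
    ∃ Z : R × J → Finset (R × J),
      (∀ p, Closed nxt (Z p)) ∧
      (∀ p, ∀ e ∈ Z p, e.1 ∈ L) ∧
      (∀ p p' e, e ∈ Z p → e ∈ Z p' → p = p') ∧
      (∀ j, L.card ≤ ((L ×ˢ (Finset.univ : Finset J)).filter
        (fun p => ∃ e ∈ Z p, e.2 = j)).card + (Fintype.card J - 1)) ∧
      (Fintype.card J ≤ L.card → ∃ o : J → R × J, Function.Injective o ∧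
        ∀ v, (Z (o v)).Nonempty) := by
  classical
  obtain ⟨Z, P, hP, hZ, hZL', hZL, hPL, hcov, hZZ, hPP, hZP, o, ho1, ho2, ho3⟩ :=
    walkers_owner nxt L hinj
  refine ⟨fun p => Z p.1 p.2, fun p => hZ p.1 p.2, fun p => hZL p.1 p.2, ?_, ?_, ?_⟩
  · intro p p' e he he'
    obtain ⟨h1, h2⟩ := hZZ _ _ _ _ e he he'
    exact Prod.ext h1 h2
  · intro j
    have hcard : (((L ×ˢ (Finset.univ : Finset J)).filter
        (fun p => ∃ e ∈ Z p.1 p.2, e.2 = j)).disjSum (Finset.univ.erase j)).card =
        ((L ×ˢ (Finset.univ : Finset J)).filter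
        (fun p => ∃ e ∈ Z p.1 p.2, e.2 = j)).card + (Fintype.card J - 1) := by
      rw [Finset.card_disjSum, Finset.card_erase_of_mem (mem_univ _), Finset.card_univ]
    rw [← hcard]
    have howner : ∀ r ∈ L, ∃ o : (R × J) ⊕ J,
        (∃ p, o = Sum.inl p ∧ (r, j) ∈ Z p.1 p.2) ∨ (∃ v, o = Sum.inr v ∧ (r, j) ∈ P v) := by
      intro r hr
      rcases hcov r hr j with ⟨r', v', h⟩ | ⟨v, h⟩
      · exact ⟨Sum.inl (r', v'), Or.inl ⟨(r', v'), rfl, h⟩⟩
      · exact ⟨Sum.inr v, Or.inr ⟨v, rfl, h⟩⟩
    have : Nonempty ((R × J) ⊕ J) := ⟨Sum.inr j⟩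
    choose! o ho using howner
    apply Finset.card_le_card_of_injOn o
    · intro r hr
      have hr' : r ∈ L := hr
      rcases ho r hr' with ⟨p, hp, hp2⟩ | ⟨v, hv, hv2⟩
      · rw [hp, mem_coe, Finset.inl_mem_disjSum]
        rw [mem_filter, mem_product]
        exact ⟨⟨hZL' _ _ _ hp2, mem_univ _⟩, _, hp2, rfl⟩
      · rw [hv, mem_coe, Finset.inr_mem_disjSum]
        rw [mem_erase]
        refine ⟨?_, mem_univ _⟩
        rintro rfl
        obtain ⟨s, hs⟩ := hP v
        exact hs.end_notMem (List.mem_map.mpr ⟨_, hv2, rfl⟩)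
    · intro r hr r' hr' hrr
      have hr1 : r ∈ L := hr
      have hr1' : r' ∈ L := hr'
      rcases ho r hr1 with ⟨p, hp, hp2⟩ | ⟨v, hv, hv2⟩
      · rcases ho r' hr1' with ⟨p', hp', hp2'⟩ | ⟨v', hv', hv2'⟩
        · have : p = p' := by
            have := hp.symm.trans (hrr.trans hp')
            exact Sum.inl.inj this
          subst this
          exact congrArg Prod.fst ((hZ p.1 p.2).cols _ hp2 _ hp2' rfl)
        · rw [hp, hv'] at hrr
          simp at hrr
      · rcases ho r' hr1' with ⟨p', hp', hp2'⟩ | ⟨v', hv', hv2'⟩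
        · rw [hv, hp'] at hrr
          simp at hrr
        · have : v = v' := by
            have := hv.symm.trans (hrr.trans hv')
            exact Sum.inr.inj this
          subst this
          obtain ⟨s, hs⟩ := hP v
          exact congrArg Prod.fst (hs.cols_inj _ hv2 _ hv2' rfl)
  · intro hJL
    have hsome : ∀ v, ∃ p, o v = some p := by
      intro v
      rcases h : o v with _ | p
      · exfalso
        have hlen := ho2 v h
        obtain ⟨s, hs⟩ := hP v
        have h1 : ((P v).toFinset.image Prod.snd).card = (P v).length := by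
          rw [Finset.card_image_of_injOn]
          · exact List.toFinset_card_of_nodup hs.nodup
          · intro e he e' he' hee
            exact hs.cols_inj e (List.mem_toFinset.1 (mem_coe.1 he)) e'
              (List.mem_toFinset.1 (mem_coe.1 he')) hee
        have h2 : ((P v).toFinset.image Prod.snd) ⊆ univ.erase v := by
          intro x hx
          obtain ⟨e, he, rfl⟩ := mem_image.1 hx
          rw [mem_erase]
          refine ⟨?_, mem_univ _⟩
          intro hev
          have hmem : e.2 ∈ (P v).map Prod.snd := List.mem_map.mpr ⟨e, List.mem_toFinset.1 he, rfl⟩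
          rw [hev] at hmem
          exact hs.end_notMem hmem
        have h3 := card_le_card h2
        rw [h1, hlen, card_erase_of_mem (mem_univ _), card_univ] at h3
        have h4 : 0 < Fintype.card J := Fintype.card_pos_iff.2 ⟨v⟩
        omega
      · exact ⟨p, rfl⟩
    choose q hq using hsome
    exact ⟨q, fun v v' h => ho3 v v' (q v) (hq v) (by rw [hq v', h]), fun v => ho1 v (q v) (hq v)⟩

end Pool.Agent.Drisko49
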