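import Mathlib
import Pool.Agent.DisjTrans.Basic
import Pool.Agent.Drisko49.Owner

/-!
Disjoint transversals when one row occurs often: loops of the other rows relative to the frequent
row, completed by copies of the frequent row with the help of an edge colouring.
-/

set_option autoImplicit false

namespace Pool.Agent.Drisko49

open Finset Pool.Agent.DisjTrans

/-- König's edge colouring theorem for a bipartite graph given by a relation. -/
theorem exists_edge_colouring {X Y : Type*} [Fintype X] [Fintype Y] [DecidableEq X] [DecidableEq Y]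
    (E : X → Y → Prop) [∀ x y, Decidable (E x y)] (d : ℕ)
    (h1 : ∀ x, (univ.filter (fun y => E x y)).card ≤ d)
    (h2 : ∀ y, (univ.filter (fun x => E x y)).card ≤ d) :
    ∃ col : X → Y → ℕ, (∀ x y, E x y → col x y < d) ∧
      (∀ x y y', E x y → E x y' → col x y = col x y' → y = y') ∧
      (∀ x x' y, E x y → E x' y → col x y = col x' y → x = x') := by
  classical
  let M : X ⊕ Y → X ⊕ Y → ℕ := fun u v => match u, v with
    | Sum.inl x, Sum.inl x' => if x = x' then d - (univ.filter (fun y => E x y)).card else 0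
    | Sum.inl x, Sum.inr y => if E x y then 1 else 0
    | Sum.inr y, Sum.inl x => if E x y then 1 else 0
    | Sum.inr y, Sum.inr y' => if y = y' then d - (univ.filter (fun x => E x y)).card else 0
  have hrow : ∀ u, ∑ v, M u v = d := by
    rintro (x | y)
    · rw [Fintype.sum_sum_type]
      have e1 : ∑ x', M (Sum.inl x) (Sum.inl x') = d - (univ.filter (fun y => E x y)).card := by
        change ∑ x', (if x = x' then d - (univ.filter (fun y => E x y)).card else 0) = _
        rw [Finset.sum_ite_eq]; simp
      have e2 : ∑ y, M (Sum.inl x) (Sum.inr y) = (univ.filter (fun y => E x y)).card := by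
        change ∑ y, (if E x y then 1 else 0) = _
        rw [Finset.card_filter]
      rw [e1, e2]
      exact Nat.sub_add_cancel (h1 x)
    · rw [Fintype.sum_sum_type]
      have e1 : ∑ x, M (Sum.inr y) (Sum.inl x) = (univ.filter (fun x => E x y)).card := by
        change ∑ x, (if E x y then 1 else 0) = _
        rw [Finset.card_filter]
      have e2 : ∑ y', M (Sum.inr y) (Sum.inr y') = d - (univ.filter (fun x => E x y)).card := by
        change ∑ y', (if y = y' then d - (univ.filter (fun x => E x y)).card else 0) = _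
        rw [Finset.sum_ite_eq]; simp
      rw [e1, e2, add_comm]
      exact Nat.sub_add_cancel (h2 y)
  have hsymm : ∀ u v, M u v = M v u := by
    rintro (x | y) (x' | y')
    · change (if x = x' then _ else 0) = (if x' = x then _ else 0)
      by_cases h : x = x'
      · subst h; rfl
      · rw [if_neg h, if_neg (Ne.symm h)]
    · rfl
    · rfl
    · change (if y = y' then _ else 0) = (if y' = y then _ else 0)
      by_cases h : y = y'
      · subst h; rfl
      · rw [if_neg h, if_neg (Ne.symm h)]
  have hcol : ∀ v, ∑ u, M u v = d := by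
    intro v
    rw [← hrow v]
    exact Finset.sum_congr rfl (fun u _ => hsymm u v)
  obtain ⟨σ, hσ⟩ := exists_perm_decomp d M hrow hcol
  have hex : ∀ x y, ∃ t : ℕ, E x y → ∃ h : t < d, σ ⟨t, h⟩ (Sum.inl x) = Sum.inr y := by
    intro x y
    by_cases hE : E x y
    · have h := hσ (Sum.inl x) (Sum.inr y)
      have hM : M (Sum.inl x) (Sum.inr y) = 1 := by
        change (if E x y then 1 else 0) = 1
        rw [if_pos hE]
      rw [hM] at h
      have hpos : 0 < (univ.filter (fun t => σ t (Sum.inl x) = Sum.inr y)).card := by omega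
      obtain ⟨t, ht⟩ := Finset.card_pos.1 hpos
      exact ⟨t.1, fun _ => ⟨t.2, (Finset.mem_filter.1 ht).2⟩⟩
    · exact ⟨0, fun h => absurd h hE⟩
  choose col hcolE using hex
  refine ⟨col, fun x y h => (hcolE x y h).1, ?_, ?_⟩
  · intro x y y' h h' he
    obtain ⟨ht, h3⟩ := hcolE x y h
    obtain ⟨ht', h3'⟩ := hcolE x y' h'
    have : (⟨col x y, ht⟩ : Fin d) = ⟨col x y', ht'⟩ := Fin.ext he
    rw [this, h3'] at h3
    exact (Sum.inr.inj h3).symm
  · intro x x' y h h' he
    obtain ⟨ht, h3⟩ := hcolE x y h
    obtain ⟨ht', h3'⟩ := hcolE x' y h'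
    have : (⟨col x y, ht⟩ : Fin d) = ⟨col x' y, ht'⟩ := Fin.ext he
    rw [this, ← h3'] at h3
    exact Sum.inl.inj ((σ _).injective h3)

set_option linter.unusedSectionVars false

variable {R J S : Type*} [Fintype R] [DecidableEq R] [Fintype J] [DecidableEq J] [DecidableEq S]

/-- The row `r` as a partial map on the columns: `v` goes to the column whose base symbol is the
symbol of row `r` in column `v`. -/
noncomputable def nxt (a : R → J → S) (b : J → S) (r : R) (v : J) : Option J :=
  open Classical in if h : ∃ j, b j = a r v then some h.choose else none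

theorem nxt_eq_some {a : R → J → S} {b : J → S} (hb : Function.Injective b) {r : R} {v j : J} :
    nxt a b r v = some j ↔ b j = a r v := by
  classical
  constructor
  · intro h
    by_cases hex : ∃ j, b j = a r v
    · simp only [nxt, dif_pos hex, Option.some.injEq] at h
      rw [← h]
      exact hex.choose_spec
    · simp only [nxt, dif_neg hex] at h
      exact absurd h (by simp)
  · intro h
    have hex : ∃ j, b j = a r v := ⟨j, h⟩
    simp only [nxt, dif_pos hex, Option.some.injEq]
    exact hb (hex.choose_spec.trans h.symm)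

/-- Assembly: closed sets of cells outside the base rows, one for every section, completed by base
rows. -/
theorem assemble (a : R → J → S) (b : J → S)
    (hb : Function.Injective b) (B : Finset R) (hB : ∀ r ∈ B, a r = b) (N : ℕ)
    (Z : Fin N → Finset (R × J)) (hZ : ∀ s, Closed (nxt a b) (Z s))
    (hZB : ∀ s, ∀ e ∈ Z s, e.1 ∉ B)
    (hZd : ∀ s s' e, e ∈ Z s → e ∈ Z s' → s = s')
    (h1 : ∀ s, (univ.filter (fun j => ¬ ∃ e ∈ Z s, e.2 = j)).card ≤ B.card)
    (h2 : ∀ j, (univ.filter (fun s => ¬ ∃ e ∈ Z s, e.2 = j)).card ≤ B.card) :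
    ∃ T : Fin N → J → R, (∀ s, Function.Injective (T s)) ∧
      (∀ s, Function.Injective (fun j => a (T s j) j)) ∧
      ∀ j, Function.Injective (fun s => T s j) := by
  classical
  obtain ⟨col, hcol1, hcol2, hcol3⟩ := exists_edge_colouring
    (fun (s : Fin N) (j : J) => ¬ ∃ e ∈ Z s, e.2 = j) B.card h1 h2
  let β := B.equivFin.symm
  let T : Fin N → J → R := fun s j =>
    if h : ∃ e ∈ Z s, e.2 = j then h.choose.1
    else (β ⟨col s j, hcol1 s j h⟩).1
  have hT1 : ∀ s j, (∃ e ∈ Z s, e.2 = j) → (T s j, j) ∈ Z s := by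
    intro s j h
    have hs := h.choose_spec
    have : T s j = h.choose.1 := dif_pos h
    rw [this]
    have h3 : (h.choose.1, j) = h.choose := Prod.ext rfl hs.2.symm
    rw [h3]
    exact hs.1
  have hT2 : ∀ s j (h : ¬ ∃ e ∈ Z s, e.2 = j), T s j = (β ⟨col s j, hcol1 s j h⟩).1 :=
    fun s j h => dif_neg h
  have hT2' : ∀ s j, (¬ ∃ e ∈ Z s, e.2 = j) → T s j ∈ B := by
    intro s j h
    rw [hT2 s j h]
    exact (β _).2
  have hβ : ∀ s j s' j' (h : ¬ ∃ e ∈ Z s, e.2 = j) (h' : ¬ ∃ e ∈ Z s', e.2 = j'),
      T s j = T s' j' → col s j = col s' j' := by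
    intro s j s' j' h h' he
    rw [hT2 s j h, hT2 s' j' h'] at he
    have := β.injective (Subtype.ext he)
    exact congrArg Fin.val this
  refine ⟨T, ?_, ?_, ?_⟩
  · intro s j j' he
    by_cases h : ∃ e ∈ Z s, e.2 = j
    · by_cases h' : ∃ e ∈ Z s, e.2 = j'
      · exact congrArg Prod.snd ((hZ s).rows _ (hT1 s j h) _ (hT1 s j' h') he)
      · have := hZB s _ (hT1 s j h)
        exact absurd (he ▸ hT2' s j' h') this
    · by_cases h' : ∃ e ∈ Z s, e.2 = j'
      · have := hZB s _ (hT1 s j' h')
        exact absurd (he ▸ hT2' s j h) this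
      · exact hcol2 s j j' h h' (hβ s j s j' h h' he)
  · intro s j j' he
    have he' : a (T s j) j = a (T s j') j' := he
    -- a closed cell cannot have a symbol that is the base symbol of an uncovered column
    have key : ∀ j j', (∃ e ∈ Z s, e.2 = j) → (¬ ∃ e ∈ Z s, e.2 = j') →
        a (T s j) j ≠ a (T s j') j' := by
      intro j j' h h' hh
      rw [hB _ (hT2' s j' h')] at hh
      obtain ⟨e', he1, he2⟩ := (hZ s).cl _ (hT1 s j h) j' ((nxt_eq_some hb).2 hh.symm)
      exact h' ⟨e', he1, he2⟩
    by_cases h : ∃ e ∈ Z s, e.2 = j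
    · by_cases h' : ∃ e ∈ Z s, e.2 = j'
      · have h3 : nxt a b (T s j) j = nxt a b (T s j') j' := by
          simp only [nxt]
          rw [he']
        exact congrArg Prod.snd ((hZ s).tgt _ (hT1 s j h) _ (hT1 s j' h') h3)
      · exact absurd he' (key j j' h h')
    · by_cases h' : ∃ e ∈ Z s, e.2 = j'
      · exact absurd he'.symm (key j' j h' h)
      · rw [hB _ (hT2' s j h), hB _ (hT2' s j' h')] at he'
        exact hb he'
  · intro j s s' he
    have he' : T s j = T s' j := he
    by_cases h : ∃ e ∈ Z s, e.2 = j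
    · by_cases h' : ∃ e ∈ Z s', e.2 = j
      · exact hZd s s' _ (hT1 s j h) (he' ▸ hT1 s' j h')
      · have := hZB s _ (hT1 s j h)
        exact absurd (he' ▸ hT2' s' j h') this
    · by_cases h' : ∃ e ∈ Z s', e.2 = j
      · have := hZB s' _ (hT1 s' j h')
        exact absurd (he' ▸ hT2' s j h) this
      · exact hcol3 s s' j h h' (hβ s j s' j h h' he')

/-- If all rows of `B` are equal to `b`, `n ≥ 2`, `m ≥ 2 n - 1` and
`(n - 1) (m - (n - 1)) ≤ n |B|`, then there are `m - (n - 1)` disjoint transversals. -/
theorem exists_of_frequent (a : R → J → S) (ha : ∀ r, Function.Injective (a r)) (b : J → S)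
    (hb : Function.Injective b) (B : Finset R) (hB : ∀ r ∈ B, a r = b)
    (hn : 2 ≤ Fintype.card J) (hm : 2 * Fintype.card J - 1 ≤ Fintype.card R)
    (hfreq : (Fintype.card J - 1) * (Fintype.card R - (Fintype.card J - 1)) ≤
      Fintype.card J * B.card) :
    ∃ T : Fin (Fintype.card R - (Fintype.card J - 1)) → J → R,
      (∀ s, Function.Injective (T s)) ∧
      (∀ s, Function.Injective (fun j => a (T s j) j)) ∧
      ∀ j, Function.Injective (fun s => T s j) := by
  classical
  set n := Fintype.card J with hndef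
  set m := Fintype.card R with hmdef
  set N := m - (n - 1) with hN
  set μ := B.card with hμ
  have hBc : (Bᶜ).card = m - μ := by rw [card_compl]
  have hμm : μ ≤ m := by
    have := card_le_univ B
    rw [← hmdef, ← hμ] at this
    exact this
  set lam := N - μ with hlam
  obtain ⟨Z, hZ, hZL, hZd, hcov, hown⟩ := exists_closed_family_owner (nxt a b) Bᶜ (by
    intro r _ v v' i h h'
    exact ha r (((nxt_eq_some hb).1 h).symm.trans ((nxt_eq_some hb).1 h')))
  -- the closed sets that cover a column
  let Cov : J → Finset (R × J) := fun j =>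
    (Bᶜ ×ˢ (Finset.univ : Finset J)).filter (fun p => ∃ e ∈ Z p, e.2 = j)
  have hCov : ∀ j, lam ≤ (Cov j).card := by
    intro j
    have h := hcov j
    rw [hBc] at h
    have h' : m - μ ≤ (Cov j).card + (n - 1) := h
    omega
  have hsub : ∀ j, ∃ C ⊆ Cov j, C.card = lam := fun j => Finset.exists_subset_card_eq (hCov j)
  choose C' hC'sub hC'card using hsub
  let C : Finset (R × J) := univ.biUnion C'
  have hCcard : C.card ≤ n * lam := by
    refine Finset.card_biUnion_le.trans ?_
    rw [Finset.sum_congr rfl (fun j _ => hC'card j), Finset.sum_const, smul_eq_mul, card_univ]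
  have hCne : ∀ p ∈ C, (Z p).Nonempty := by
    intro p hp
    obtain ⟨j, _, hj⟩ := Finset.mem_biUnion.1 hp
    obtain ⟨e, he, _⟩ := (Finset.mem_filter.1 (hC'sub j hj)).2
    exact ⟨e, he⟩
  -- a family `D` of loops containing `C`, with at most `N` members
  have hfam : ∃ D : Finset (R × J), C ⊆ D ∧ D.card ≤ N ∧
      (n ≤ μ ∨ (D.card = N ∧ (∀ p ∈ D, (Z p).Nonempty) ∧ n - 1 ≤ μ)) := by
    have hNlam : n * lam ≤ N := by
      rcases Nat.eq_zero_or_pos lam with h0 | h0
      · rw [h0]; simp
      · have hNeq : N = μ + lam := by omega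
        have h3 : (n - 1) * (μ + lam) ≤ n * μ := by rw [← hNeq]; exact hfreq
        obtain ⟨n', hn'⟩ : ∃ n', n = n' + 1 := ⟨n - 1, by omega⟩
        rw [hn'] at h3 ⊢
        simp only [Nat.add_sub_cancel] at h3
        have h4 : n' * lam ≤ μ := by nlinarith
        rw [hNeq]
        nlinarith
    by_cases hμn : n ≤ μ
    · exact ⟨C, Finset.Subset.refl _, hCcard.trans hNlam, Or.inl hμn⟩
    · -- then `μ = n - 1`, `m = 2 n - 1`, `N = n`
      have hμ1 : n - 1 ≤ μ := by
        by_contra hlt
        push Not at hlt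
        have h3 : n * μ < (n - 1) * n := by
          obtain ⟨n', hn'⟩ : ∃ n', n = n' + 1 := ⟨n - 1, by omega⟩
          rw [hn'] at hlt ⊢
          simp only [Nat.add_sub_cancel] at hlt ⊢
          nlinarith
        have h4 : (n - 1) * n ≤ (n - 1) * N := Nat.mul_le_mul_left _ (by omega)
        omega
      have hμeq : μ = n - 1 := by omega
      have hNn : N ≤ n := by
        by_contra hlt
        push Not at hlt
        rw [hμeq] at hfreq
        have h0 : 0 < n - 1 := by omega
        have h5 : (n - 1) * (n + 1) ≤ (n - 1) * N := Nat.mul_le_mul_left _ hlt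
        have h6 : n * (n - 1) < (n - 1) * (n + 1) := by
          rw [Nat.mul_comm n (n - 1)]
          exact Nat.mul_lt_mul_of_pos_left (by omega) h0
        omega
      have hNeq : N = n := by omega
      obtain ⟨o, ho1, ho2⟩ := hown (by rw [hBc]; omega)
      obtain ⟨D, hD1, hD2, hD3⟩ := Finset.exists_subsuperset_card_eq
        (s := C) (t := C ∪ univ.image o) (n := N) Finset.subset_union_left
        (hCcard.trans hNlam)
        (by
          have h7 : (univ.image o).card = n := by
            rw [Finset.card_image_of_injective _ ho1, card_univ]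
          have h8 := Finset.card_le_card (Finset.subset_union_right (s₁ := C) (s₂ := univ.image o))
          omega)
      refine ⟨D, hD1, hD3.le, Or.inr ⟨hD3, ?_, hμ1⟩⟩
      intro p hp
      rcases Finset.mem_union.1 (hD2 hp) with h | h
      · exact hCne p h
      · obtain ⟨v, _, rfl⟩ := Finset.mem_image.1 h
        exact ho2 v
  obtain ⟨D, hCD, hDN, hD⟩ := hfam
  obtain ⟨ι⟩ := Function.Embedding.nonempty_of_card_le (α := {p // p ∈ D}) (β := Fin N)
    (by rw [Fintype.card_coe, Fintype.card_fin]; exact hDN)
  let Z' : Fin N → Finset (R × J) := fun s =>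
    if h : ∃ p : {p // p ∈ D}, ι p = s then Z h.choose.1 else ∅
  have hZ'1 : ∀ p : {p // p ∈ D}, Z' (ι p) = Z p.1 := by
    intro p
    have h : ∃ q : {p // p ∈ D}, ι q = ι p := ⟨p, rfl⟩
    have h2 : h.choose = p := ι.injective h.choose_spec
    simp only [Z', dif_pos h, h2]
  have hZ'2 : ∀ s e, e ∈ Z' s → ∃ p : {p // p ∈ D}, ι p = s ∧ e ∈ Z p.1 := by
    intro s e he
    by_cases h : ∃ p : {p // p ∈ D}, ι p = s
    · obtain ⟨p, hp⟩ := h
      rw [← hp, hZ'1] at he
      exact ⟨p, hp, he⟩
    · simp only [Z', dif_neg h] at he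
      simp at he
  refine assemble a b hb B hB N Z' ?_ ?_ ?_ ?_ ?_
  · intro s
    by_cases h : ∃ p : {p // p ∈ D}, ι p = s
    · obtain ⟨p, hp⟩ := h
      rw [← hp, hZ'1]
      exact hZ p.1
    · simp only [Z', dif_neg h]
      exact closed_empty _
  · intro s e he
    obtain ⟨p, _, hp⟩ := hZ'2 s e he
    exact Finset.mem_compl.1 (hZL p.1 e hp)
  · intro s s' e he he'
    obtain ⟨p, hp1, hp2⟩ := hZ'2 s e he
    obtain ⟨p', hp1', hp2'⟩ := hZ'2 s' e he'
    have : p.1 = p'.1 := hZd _ _ e hp2 hp2'
    rw [← hp1, ← hp1', Subtype.ext this]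
  · intro s
    rcases hD with hD | ⟨hD1, hD2, hD3⟩
    · exact (Finset.card_le_univ _).trans hD
    · have hbij : Function.Bijective ι := by
        rw [Fintype.bijective_iff_injective_and_card]
        exact ⟨ι.injective, by rw [Fintype.card_coe, Fintype.card_fin, hD1]⟩
      obtain ⟨p, hp⟩ := hbij.2 s
      obtain ⟨e, he⟩ := hD2 p.1 p.2
      have hsub : univ.filter (fun j => ¬ ∃ e ∈ Z' s, e.2 = j) ⊆ univ.erase e.2 := by
        intro j hj
        refine Finset.mem_erase.2 ⟨?_, Finset.mem_univ _⟩
        rintro rfl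
        refine (Finset.mem_filter.1 hj).2 ⟨e, ?_, rfl⟩
        rw [← hp, hZ'1]
        exact he
      have h3 := Finset.card_le_card hsub
      rw [Finset.card_erase_of_mem (Finset.mem_univ _), card_univ] at h3
      exact h3.trans hD3
  · intro j
    have hsplit := Finset.card_filter_add_card_filter_not (s := (univ : Finset (Fin N)))
      (fun s => ∃ e ∈ Z' s, e.2 = j)
    rw [card_univ, Fintype.card_fin] at hsplit
    have hge : lam ≤ (univ.filter (fun s => ∃ e ∈ Z' s, e.2 = j)).card := by
      rw [← hC'card j, ← Finset.card_attach]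
      refine Finset.card_le_card_of_injOn (fun p => ι ⟨p.1, hCD (Finset.mem_biUnion.2
        ⟨j, Finset.mem_univ _, p.2⟩)⟩) ?_ ?_
      · intro p _
        refine Finset.mem_coe.2 (Finset.mem_filter.2 ⟨Finset.mem_univ _, ?_⟩)
        rw [hZ'1]
        exact (Finset.mem_filter.1 (hC'sub j p.2)).2
      · intro p _ p' _ h
        have := ι.injective h
        exact Subtype.ext (Subtype.mk.inj this)
    omega

end Pool.Agent.Drisko49
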