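import Mathlib

/-!
General lemmas on least squares over a cone: existence of a minimiser, first order conditions,
reduction of the support.
-/

namespace Pool.Agent.Drisko49

open Finset

set_option linter.unusedSectionVars false
set_option linter.unusedVariables false

variable {I D : Type*} [Fintype I] [DecidableEq I] [Fintype D] [DecidableEq D]

/-- The residual `μ b - p - ∑ x_i v_i`. -/
def resid (v : I → D → ℝ) (b p : D → ℝ) (x : I → ℝ) (μ : ℝ) : D → ℝ :=
  fun d => μ * b d - p d - ∑ i, x i * v i d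

/-- The dot product. -/
def dot (x y : D → ℝ) : ℝ := ∑ d, x d * y d

lemma dot_comm (x y : D → ℝ) : dot x y = dot y x := by
  unfold dot
  exact Finset.sum_congr rfl fun d _ => mul_comm _ _

lemma dot_add_right (x y z : D → ℝ) : dot x (fun d => y d + z d) = dot x y + dot x z := by
  unfold dot
  rw [← Finset.sum_add_distrib]
  exact Finset.sum_congr rfl fun d _ => mul_add _ _ _

lemma dot_smul_right (x y : D → ℝ) (t : ℝ) : dot x (fun d => t * y d) = t * dot x y := by
  unfold dot
  rw [Finset.mul_sum]
  exact Finset.sum_congr rfl fun d _ => by ring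

lemma dot_self_nonneg (x : D → ℝ) : 0 ≤ dot x x :=
  Finset.sum_nonneg fun d _ => mul_self_nonneg _

lemma dot_self_pos {x : D → ℝ} (hx : x ≠ 0) : 0 < dot x x := by
  rcases (dot_self_nonneg x).lt_or_eq with h | h
  · exact h
  · exfalso
    apply hx
    funext d
    have h2 := (Finset.sum_eq_zero_iff_of_nonneg (fun d _ => mul_self_nonneg (x d))).1 h.symm d
      (Finset.mem_univ d)
    exact mul_self_eq_zero.1 h2

lemma dot_add_self (r u : D → ℝ) (t : ℝ) :
    dot (fun d => r d + t * u d) (fun d => r d + t * u d)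
      = dot r r + 2 * t * dot r u + t ^ 2 * dot u u := by
  unfold dot
  rw [Finset.mul_sum, Finset.mul_sum, ← Finset.sum_add_distrib, ← Finset.sum_add_distrib]
  exact Finset.sum_congr rfl fun d _ => by ring

/-- If `|r|² ≤ |r + t u|²` for all small `t ≥ 0`, then `r · u ≥ 0`. -/
lemma dot_nonneg_of_min {r u : D → ℝ} {t₀ : ℝ} (ht₀ : 0 < t₀)
    (h : ∀ t, 0 ≤ t → t ≤ t₀ → dot r r ≤
      dot (fun d => r d + t * u d) (fun d => r d + t * u d)) : 0 ≤ dot r u := by
  by_contra hneg
  push Not at hneg
  have hu : 0 ≤ dot u u := dot_self_nonneg u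
  set c := dot r u with hc
  set q := dot u u with hq
  -- choose t = min t₀ (-c/(q+1))
  have hq1 : 0 < q + 1 := by linarith
  have ht1 : 0 < -c / (q + 1) := div_pos (by linarith) hq1
  set t := min t₀ (-c / (q + 1)) with ht
  have htpos : 0 < t := lt_min ht₀ ht1
  have h1 := h t htpos.le (min_le_left _ _)
  rw [dot_add_self] at h1
  have h2 : t ≤ -c / (q + 1) := min_le_right _ _
  have h3 : t * (q + 1) ≤ -c := by
    rwa [le_div_iff₀ hq1] at h2
  have h4 : 0 ≤ 2 * t * c + t ^ 2 * q := by linarith
  have h5 : 0 ≤ 2 * c + t * q := by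
    by_contra hcon
    push Not at hcon
    have : t * (2 * c + t * q) < 0 := mul_neg_of_pos_of_neg htpos hcon
    nlinarith
  nlinarith

lemma dot_eq_zero_of_min {r u : D → ℝ} {t₀ : ℝ} (ht₀ : 0 < t₀)
    (h : ∀ t, -t₀ ≤ t → t ≤ t₀ → dot r r ≤
      dot (fun d => r d + t * u d) (fun d => r d + t * u d)) : dot r u = 0 := by
  apply le_antisymm
  · have h1 : 0 ≤ dot r (fun d => (-1) * u d) := by
      refine dot_nonneg_of_min ht₀ ?_
      intro t ht0 ht1
      have h2 := h (-t) (by linarith) (by linarith)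
      refine h2.trans (le_of_eq ?_)
      congr 1 <;> (funext d; ring)
    rw [dot_smul_right] at h1
    linarith
  · refine dot_nonneg_of_min ht₀ ?_
    intro t ht0 ht1
    exact h t (by linarith) ht1

/-- Minimality of `(x, μ)` for a fixed family of generators. -/
def IsOpt (v : I → D → ℝ) (b p : D → ℝ) (x : I → ℝ) (μ : ℝ) : Prop :=
  (∀ i, 0 ≤ x i) ∧ ∀ (x' : I → ℝ) (μ' : ℝ), (∀ i, 0 ≤ x' i) →
    dot (resid v b p x μ) (resid v b p x μ) ≤ dot (resid v b p x' μ') (resid v b p x' μ')

lemma resid_update (v : I → D → ℝ) (b p : D → ℝ) (x : I → ℝ) (μ : ℝ) (i : I) (t : ℝ) :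
    resid v b p (fun i' => if i' = i then x i + t else x i') μ
      = fun d => resid v b p x μ d + t * (-(v i d)) := by
  funext d
  unfold resid
  have h : ∑ i', (if i' = i then x i + t else x i') * v i' d
      = ∑ i', x i' * v i' d + t * v i d := by
    have h1 : ∀ i', (if i' = i then x i + t else x i') * v i' d
        = x i' * v i' d + if i' = i then t * v i d else 0 := by
      intro i'
      split_ifs with hi
      · subst hi; ring
      · ring
    rw [Finset.sum_congr rfl fun i' _ => h1 i', Finset.sum_add_distrib,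
      Finset.sum_ite_eq' Finset.univ i]
    simp
  rw [h]; ring

lemma resid_mu (v : I → D → ℝ) (b p : D → ℝ) (x : I → ℝ) (μ t : ℝ) :
    resid v b p x (μ + t) = fun d => resid v b p x μ d + t * b d := by
  funext d
  unfold resid
  ring

lemma IsOpt.dot_b {v : I → D → ℝ} {b p : D → ℝ} {x : I → ℝ} {μ : ℝ} (h : IsOpt v b p x μ) :
    dot (resid v b p x μ) b = 0 := by
  refine dot_eq_zero_of_min (t₀ := 1) one_pos ?_
  intro t _ _
  rw [← resid_mu]
  exact h.2 x (μ + t) h.1

lemma IsOpt.dot_le {v : I → D → ℝ} {b p : D → ℝ} {x : I → ℝ} {μ : ℝ} (h : IsOpt v b p x μ)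
    (i : I) : dot (resid v b p x μ) (v i) ≤ 0 := by
  have h1 : 0 ≤ dot (resid v b p x μ) (fun d => -(v i d)) := by
    refine dot_nonneg_of_min (t₀ := 1) one_pos ?_
    intro t ht _
    rw [← resid_update]
    refine h.2 _ μ ?_
    intro i'
    split_ifs
    · exact add_nonneg (h.1 i) ht
    · exact h.1 i'
  have h2 : dot (resid v b p x μ) (fun d => -(v i d)) = - dot (resid v b p x μ) (v i) := by
    unfold dot
    rw [← Finset.sum_neg_distrib]
    exact Finset.sum_congr rfl fun d _ => by ring
  linarith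

lemma IsOpt.dot_eq {v : I → D → ℝ} {b p : D → ℝ} {x : I → ℝ} {μ : ℝ} (h : IsOpt v b p x μ)
    (i : I) (hi : x i ≠ 0) : dot (resid v b p x μ) (v i) = 0 := by
  have hpos : 0 < x i := lt_of_le_of_ne (h.1 i) (Ne.symm hi)
  have h1 : dot (resid v b p x μ) (fun d => -(v i d)) = 0 := by
    refine dot_eq_zero_of_min (t₀ := x i) hpos ?_
    intro t ht _
    rw [← resid_update]
    refine h.2 _ μ ?_
    intro i'
    split_ifs
    · linarith
    · exact h.1 i'
  have h2 : dot (resid v b p x μ) (fun d => -(v i d)) = - dot (resid v b p x μ) (v i) := by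
    unfold dot
    rw [← Finset.sum_neg_distrib]
    exact Finset.sum_congr rfl fun d _ => by ring
  linarith

/-- `|r|² = - r·p` for the optimal residual. -/
lemma IsOpt.dot_self {v : I → D → ℝ} {b p : D → ℝ} {x : I → ℝ} {μ : ℝ} (h : IsOpt v b p x μ) :
    dot (resid v b p x μ) (resid v b p x μ) = - dot (resid v b p x μ) p := by
  set r := resid v b p x μ with hr
  have h1 : dot r r = μ * dot r b - dot r p - ∑ i, x i * dot r (v i) := by
    have h2 : ∀ d, r d * r d
        = μ * (r d * b d) - r d * p d - ∑ i, x i * (r d * v i d) := by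
      intro d
      have hrd : r d * r d = r d * (μ * b d - p d - ∑ i, x i * v i d) := rfl
      rw [hrd, mul_sub, mul_sub, Finset.mul_sum]
      congr 1
      · ring
      · exact Finset.sum_congr rfl fun i _ => by ring
    unfold dot
    rw [Finset.sum_congr rfl fun d _ => h2 d, Finset.sum_sub_distrib, Finset.sum_sub_distrib,
      ← Finset.mul_sum, Finset.sum_comm]
    congr 1
    exact Finset.sum_congr rfl fun i _ => by rw [Finset.mul_sum]
  have h3 : ∑ i, x i * dot r (v i) = 0 := by
    refine Finset.sum_eq_zero fun i _ => ?_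
    by_cases hi : x i = 0
    · rw [hi, zero_mul]
    · rw [hr, h.dot_eq i hi, mul_zero]
  rw [h1, h3, hr, h.dot_b]
  ring

/-- Support reduction. -/
lemma exists_reduce {x g : I → ℝ} (hx : ∀ i, 0 ≤ x i) (hg : ∀ i, g i ≠ 0 → x i ≠ 0)
    (hne : ∃ i, g i ≠ 0) :
    ∃ t : ℝ, (∀ i, 0 ≤ x i + t * g i) ∧
      (univ.filter fun i => x i + t * g i ≠ 0).card < (univ.filter fun i => x i ≠ 0).card := by
  -- the case where some entry of `g` is negative
  have key : ∀ g : I → ℝ, (∀ i, g i ≠ 0 → x i ≠ 0) → (∃ i, g i < 0) →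
      ∃ t : ℝ, (∀ i, 0 ≤ x i + t * g i) ∧
      (univ.filter fun i => x i + t * g i ≠ 0).card < (univ.filter fun i => x i ≠ 0).card := by
    intro g hg hneg
    obtain ⟨i₀, hi₀⟩ := hneg
    obtain ⟨i₁, hi₁, hmin⟩ := Finset.exists_min_image (univ.filter fun i => g i < 0)
      (fun i => x i / (- g i)) ⟨i₀, by simp [hi₀]⟩
    have hg1 : g i₁ < 0 := (Finset.mem_filter.1 hi₁).2
    refine ⟨x i₁ / (- g i₁), ?_, ?_⟩
    · intro i
      by_cases hi : g i < 0
      · have h1 := hmin i (by simp [hi])
        have h2 : 0 < - g i := by linarith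
        rw [le_div_iff₀ h2] at h1
        nlinarith
      · push Not at hi
        have h1 : 0 ≤ x i₁ / (- g i₁) := div_nonneg (hx i₁) (by linarith)
        have := mul_nonneg h1 hi
        linarith [hx i]
    · refine Finset.card_lt_card ?_
      rw [Finset.ssubset_iff_of_subset]
      · refine ⟨i₁, ?_, ?_⟩
        · simp only [Finset.mem_filter, Finset.mem_univ, true_and]
          exact hg i₁ hg1.ne
        · simp only [Finset.mem_filter, Finset.mem_univ, true_and, not_not]
          have h3 : g i₁ ≠ 0 := hg1.ne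
          rw [div_mul_eq_mul_div, div_neg, mul_div_assoc, div_self h3]
          ring
      · intro i hi
        simp only [Finset.mem_filter, Finset.mem_univ, true_and] at hi ⊢
        intro hxi
        apply hi
        have hgi : g i = 0 := by
          by_contra hcon
          exact hg i hcon hxi
        rw [hxi, hgi]
        ring
  obtain ⟨i₀, hi₀⟩ := hne
  rcases lt_or_gt_of_ne hi₀ with h | h
  · exact key g hg ⟨i₀, h⟩
  · obtain ⟨t, h1, h2⟩ := key (fun i => - g i) (fun i hi => hg i (by simpa using hi))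
      ⟨i₀, by simpa using h⟩
    refine ⟨-t, ?_, ?_⟩
    · intro i
      have := h1 i
      linarith [this, neg_mul_comm t (g i)]
    · convert h2 using 3 <;> ring_nf

end Pool.Agent.Drisko49
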