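import Mathlib

/-!
A weighted form of Birkhoff's theorem for column-saturating matchings: a fractional matching that
saturates the columns, supported on a rainbow set of cells, can be replaced by an integral one
whose weight is not larger.
-/

namespace Pool.Agent.Drisko49

open Finset

set_option linter.unusedSectionVars false
set_option linter.unusedVariables false

variable {ι J κ : Type*} [Fintype ι] [DecidableEq ι] [Fintype J] [DecidableEq J]
  [Fintype κ] [DecidableEq κ]

theorem exists_integral (a : ι → J → κ) (w : ι → J → ℝ) (R : ι → J) (x : ι → ℝ) (σ : κ → ℝ)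
    (μ θ : ℝ) (hx : ∀ i, 0 ≤ x i) (hσ : ∀ s, 0 ≤ σ s) (hμ : 0 < μ)
    (hcol : ∀ j, ∑ i, (if R i = j then x i else 0) = μ)
    (hsym : ∀ s, ∑ i, (if a i (R i) = s then x i else 0) + σ s = μ)
    (hw : ∑ i, x i * w i (R i) ≤ μ * θ) :
    ∃ r : J → ι, Function.Injective r ∧ Function.Injective (fun j => a (r j) j) ∧
      ∑ j, w (r j) j ≤ θ := by
  classical
  -- the cells used at column `j` with symbol `s`
  let S : J → κ → Finset ι := fun j s => univ.filter fun i => R i = j ∧ a i j = s
  let Z : J → κ → ℝ := fun j s => (∑ i ∈ S j s, x i) / μ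
  have hZ0 : ∀ j s, 0 ≤ Z j s := fun j s =>
    div_nonneg (Finset.sum_nonneg fun i _ => hx i) hμ.le
  have hZrow : ∀ j, ∑ s, Z j s = 1 := by
    intro j
    have h1 : ∑ s, ∑ i ∈ S j s, x i = ∑ i, (if R i = j then x i else 0) := by
      rw [← Finset.sum_filter]
      rw [← Finset.sum_fiberwise_of_maps_to (s := univ.filter fun i => R i = j) (t := univ)
        (g := fun i => a i j) (fun i _ => Finset.mem_univ _)]
      refine Finset.sum_congr rfl fun s _ => ?_
      refine Finset.sum_congr ?_ fun _ _ => rfl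
      ext i
      simp [S]
    show ∑ s, (∑ i ∈ S j s, x i) / μ = 1
    rw [← Finset.sum_div, h1, hcol, div_self hμ.ne']
  have hZcol : ∀ s, ∑ j, Z j s + σ s / μ = 1 := by
    intro s
    have h1 : ∑ j, ∑ i ∈ S j s, x i = ∑ i, (if a i (R i) = s then x i else 0) := by
      rw [← Finset.sum_filter]
      rw [← Finset.sum_fiberwise_of_maps_to (s := univ.filter fun i => a i (R i) = s) (t := univ)
        (g := fun i => R i) (fun i _ => Finset.mem_univ _)]
      refine Finset.sum_congr rfl fun j _ => ?_
      refine Finset.sum_congr ?_ fun _ _ => rfl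
      ext i
      simp only [S, Finset.mem_filter, Finset.mem_univ, true_and]
      constructor
      · rintro ⟨h1, h2⟩; exact ⟨by rw [h1]; exact h2, h1⟩
      · rintro ⟨h1, h2⟩; exact ⟨h2, by rw [← h2]; exact h1⟩
    show ∑ j, (∑ i ∈ S j s, x i) / μ + σ s / μ = 1
    rw [← Finset.sum_div, h1, ← add_div, hsym, div_self hμ.ne']
  let M : Matrix (J ⊕ κ) (J ⊕ κ) ℝ := fun t u =>
    match t, u with
    | Sum.inl _, Sum.inl _ => 0
    | Sum.inl j, Sum.inr s => Z j s
    | Sum.inr s, Sum.inl j => Z j s
    | Sum.inr s, Sum.inr s' => if s = s' then σ s / μ else 0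
  have hM : M ∈ doublyStochastic ℝ (J ⊕ κ) := by
    rw [mem_doublyStochastic_iff_sum]
    refine ⟨?_, ?_, ?_⟩
    · rintro (j | s) (j' | s')
      · exact le_refl _
      · exact hZ0 _ _
      · exact hZ0 _ _
      · show 0 ≤ if s = s' then σ s / μ else 0
        split_ifs
        · exact div_nonneg (hσ s) hμ.le
        · exact le_refl _
    · rintro (j | s)
      · rw [Fintype.sum_sum_type]
        show ∑ _j' : J, (0 : ℝ) + ∑ s, Z j s = 1
        rw [hZrow]; simp
      · rw [Fintype.sum_sum_type]
        show ∑ j, Z j s + ∑ s', (if s = s' then σ s / μ else 0) = 1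
        rw [Finset.sum_ite_eq Finset.univ s]
        simpa using hZcol s
    · rintro (j | s)
      · rw [Fintype.sum_sum_type]
        show ∑ _j' : J, (0 : ℝ) + ∑ s, Z j s = 1
        rw [hZrow]; simp
      · rw [Fintype.sum_sum_type]
        show ∑ j, Z j s + ∑ s', (if s' = s then σ s' / μ else 0) = 1
        rw [Finset.sum_ite_eq' Finset.univ s]
        simpa using hZcol s
  obtain ⟨lam, hlam0, hlam1, hlamM⟩ := exists_eq_sum_perm_of_mem_doublyStochastic hM
  have hMentry : ∀ t u, M t u = ∑ π : Equiv.Perm (J ⊕ κ), lam π * (if π t = u then 1 else 0) := by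
    intro t u
    rw [← hlamM, Matrix.sum_apply]
    refine Finset.sum_congr rfl fun π _ => ?_
    rw [Matrix.smul_apply, smul_eq_mul]
    congr 1
    simp [Equiv.Perm.permMatrix, PEquiv.toMatrix_apply, Equiv.toPEquiv_apply]
  -- the best cell
  have hbest : ∀ j s, (S j s).Nonempty → ∃ i ∈ S j s, ∀ i' ∈ S j s, w i j ≤ w i' j :=
    fun j s h => Finset.exists_min_image (S j s) (fun i => w i j) h
  let cost : J → κ → ℝ := fun j s => if h : (S j s).Nonempty then w (hbest j s h).choose j else 0
  have hcost : ∀ j s, Z j s * cost j s ≤ (∑ i ∈ S j s, x i * w i j) / μ := by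
    intro j s
    by_cases h : (S j s).Nonempty
    · have h1 : cost j s = w (hbest j s h).choose j := dif_pos h
      rw [h1]
      show (∑ i ∈ S j s, x i) / μ * _ ≤ _
      rw [div_mul_eq_mul_div, div_le_div_iff_of_pos_right hμ, Finset.sum_mul]
      refine Finset.sum_le_sum fun i hi => ?_
      exact mul_le_mul_of_nonneg_left ((hbest j s h).choose_spec.2 i hi) (hx i)
    · rw [Finset.not_nonempty_iff_eq_empty] at h
      have : Z j s = 0 := by
        show (∑ i ∈ S j s, x i) / μ = 0
        rw [h]; simp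
      rw [this, h]; simp
  let C : J ⊕ κ → J ⊕ κ → ℝ := fun t u =>
    match t, u with
    | Sum.inl j, Sum.inr s => cost j s
    | _, _ => 0
  have htotal : ∑ π : Equiv.Perm (J ⊕ κ), lam π * ∑ t, C t (π t) ≤ θ := by
    have h1 : ∑ π : Equiv.Perm (J ⊕ κ), lam π * ∑ t, C t (π t) = ∑ t, ∑ u, M t u * C t u := by
      have h2 : ∀ t, ∑ u, M t u * C t u = ∑ π : Equiv.Perm (J ⊕ κ), lam π * C t (π t) := by
        intro t
        have h3 : ∀ u, M t u * C t u
            = ∑ π : Equiv.Perm (J ⊕ κ), (if π t = u then lam π * C t u else 0) := by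
          intro u
          rw [hMentry, Finset.sum_mul]
          refine Finset.sum_congr rfl fun π _ => ?_
          split_ifs <;> ring
        rw [Finset.sum_congr rfl fun u _ => h3 u, Finset.sum_comm]
        refine Finset.sum_congr rfl fun π _ => ?_
        rw [Finset.sum_ite_eq Finset.univ (π t)]
        simp
      rw [Finset.sum_congr rfl fun t _ => h2 t, Finset.sum_comm]
      refine Finset.sum_congr rfl fun π _ => ?_
      rw [Finset.mul_sum]
    have h4 : ∑ t, ∑ u, M t u * C t u = ∑ j, ∑ s, Z j s * cost j s := by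
      rw [Fintype.sum_sum_type]
      have h5 : ∑ s : κ, ∑ u, M (Sum.inr s) u * C (Sum.inr s) u = 0 := by
        refine Finset.sum_eq_zero fun s _ => Finset.sum_eq_zero fun u _ => ?_
        show _ * (0 : ℝ) = 0
        exact mul_zero _
      rw [h5, add_zero]
      refine Finset.sum_congr rfl fun j _ => ?_
      rw [Fintype.sum_sum_type]
      have h6 : ∑ j' : J, M (Sum.inl j) (Sum.inl j') * C (Sum.inl j) (Sum.inl j') = 0 :=
        Finset.sum_eq_zero fun j' _ => by
          show (0 : ℝ) * 0 = 0
          ring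
      rw [h6, zero_add]
    rw [h1, h4]
    calc ∑ j, ∑ s, Z j s * cost j s ≤ ∑ j, ∑ s, (∑ i ∈ S j s, x i * w i j) / μ :=
          Finset.sum_le_sum fun j _ => Finset.sum_le_sum fun s _ => hcost j s
      _ = (∑ i, x i * w i (R i)) / μ := by
          rw [Finset.sum_congr rfl fun j _ => (Finset.sum_div _ _ _).symm, ← Finset.sum_div]
          congr 1
          have h7 : ∀ j, ∑ s, ∑ i ∈ S j s, x i * w i j
              = ∑ i ∈ univ.filter (fun i => R i = j), x i * w i (R i) := by
            intro j
            rw [← Finset.sum_fiberwise_of_maps_to (s := univ.filter fun i => R i = j)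
              (t := univ) (g := fun i => a i j) (fun i _ => Finset.mem_univ _)]
            refine Finset.sum_congr rfl fun s _ => ?_
            refine Finset.sum_congr ?_ ?_
            · ext i
              simp [S]
            · intro i hi
              simp only [S, Finset.mem_filter, Finset.mem_univ, true_and] at hi
              rw [hi.1]
          rw [Finset.sum_congr rfl fun j _ => h7 j]
          exact Finset.sum_fiberwise_of_maps_to (fun i _ => Finset.mem_univ _) _
      _ ≤ θ := by
          rw [div_le_iff₀ hμ]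
          linarith
  -- a permutation with positive weight and small cost
  obtain ⟨π, hπ1, hπ2⟩ : ∃ π : Equiv.Perm (J ⊕ κ), 0 < lam π ∧ ∑ t, C t (π t) ≤ θ := by
    by_contra hcon
    push Not at hcon
    have h1 : ∀ π : Equiv.Perm (J ⊕ κ), lam π * θ ≤ lam π * ∑ t, C t (π t) := by
      intro π
      rcases (hlam0 π).eq_or_lt with h | h
      · rw [← h]; simp
      · exact mul_le_mul_of_nonneg_left (hcon π h).le (hlam0 π)
    obtain ⟨π₀, -, hπ₀⟩ : ∃ π ∈ (univ : Finset (Equiv.Perm (J ⊕ κ))), 0 < lam π := by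
      apply Finset.exists_lt_of_sum_lt
      rw [hlam1]; simp
    have h2 : ∑ π : Equiv.Perm (J ⊕ κ), lam π * θ
        < ∑ π : Equiv.Perm (J ⊕ κ), lam π * ∑ t, C t (π t) :=
      Finset.sum_lt_sum (fun π _ => h1 π)
        ⟨π₀, Finset.mem_univ _, mul_lt_mul_of_pos_left (hcon π₀ hπ₀) hπ₀⟩
    rw [← Finset.sum_mul, hlam1, one_mul] at h2
    linarith
  have hex : ∀ j, ∃ s, π (Sum.inl j) = Sum.inr s ∧ (S j s).Nonempty := by
    intro j
    have h1 : 0 < M (Sum.inl j) (π (Sum.inl j)) := by
      rw [hMentry]
      refine Finset.sum_pos' (fun π' _ => mul_nonneg (hlam0 π') (by split_ifs <;> simp)) ?_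
      refine ⟨π, Finset.mem_univ _, ?_⟩
      simpa using hπ1
    rcases hu : π (Sum.inl j) with j' | s
    · rw [hu] at h1
      exact absurd h1 (lt_irrefl 0)
    · refine ⟨s, rfl, ?_⟩
      rw [hu] at h1
      by_contra hcon
      rw [Finset.not_nonempty_iff_eq_empty] at hcon
      have : M (Sum.inl j) (Sum.inr s) = 0 := by
        show (∑ i ∈ S j s, x i) / μ = 0
        rw [hcon]; simp
      linarith
  choose τ hτ1 hτ2 using hex
  let r : J → ι := fun j => (hbest j (τ j) (hτ2 j)).choose
  have hr : ∀ j, r j ∈ S j (τ j) := fun j => (hbest j (τ j) (hτ2 j)).choose_spec.1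
  have hr1 : ∀ j, R (r j) = j := fun j => (Finset.mem_filter.1 (hr j)).2.1
  have hr2 : ∀ j, a (r j) j = τ j := fun j => (Finset.mem_filter.1 (hr j)).2.2
  refine ⟨r, ?_, ?_, ?_⟩
  · intro j j' h
    rw [← hr1 j, ← hr1 j', h]
  · intro j j' h
    simp only [hr2] at h
    have h1 : π (Sum.inl j) = π (Sum.inl j') := by rw [hτ1, hτ1, h]
    exact Sum.inl_injective (π.injective h1)
  · have h1 : ∑ t, C t (π t) = ∑ j, w (r j) j := by
      rw [Fintype.sum_sum_type]
      have h2 : ∑ s : κ, C (Sum.inr s) (π (Sum.inr s)) = 0 :=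
        Finset.sum_eq_zero fun s _ => rfl
      rw [h2, add_zero]
      refine Finset.sum_congr rfl fun j _ => ?_
      rw [hτ1]
      show cost j (τ j) = _
      exact dif_pos (hτ2 j)
    rw [← h1]
    exact hπ2

end Pool.Agent.Drisko49
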