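import Pool.Agent.Drisko49.MinExists
import Pool.Agent.Drisko49.Birk

/-!
The weighted Drisko theorem, strict form: if `|ι| = 2|J| - 1`, every row is an injection
`J → κ`, the weights are nonnegative and every row has total weight `< θ`, there is a transversal
of weight at most `θ`.
-/

namespace Pool.Agent.Drisko49

open Finset

set_option linter.unusedSectionVars false
set_option linter.unusedVariables false

variable {ι J κ : Type} [Fintype ι] [DecidableEq ι] [Fintype J] [DecidableEq J]
  [Fintype κ] [DecidableEq κ]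

/-- The generators: cells `(i, R i)` and slack vectors. -/
def gen (a : ι → J → κ) (w : ι → J → ℝ) (R : ι → J) : ι ⊕ κ → (J ⊕ Option κ) → ℝ
  | Sum.inl i, Sum.inl j => if R i = j then 1 else 0
  | Sum.inl i, Sum.inr (some s) => if a i (R i) = s then 1 else 0
  | Sum.inl i, Sum.inr none => w i (R i)
  | Sum.inr _, Sum.inl _ => 0
  | Sum.inr s, Sum.inr (some s') => if s = s' then 1 else 0
  | Sum.inr _, Sum.inr none => 0

/-- The target. -/
def tgt (θ : ℝ) : (J ⊕ Option κ) → ℝ
  | Sum.inl _ => 1
  | Sum.inr (some _) => 1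
  | Sum.inr none => θ

/-- The weight direction. -/
def dirp : (J ⊕ Option κ) → ℝ
  | Sum.inl _ => 0
  | Sum.inr (some _) => 0
  | Sum.inr none => 1

lemma sum_gen_inl (a : ι → J → κ) (w : ι → J → ℝ) (R : ι → J) (x : ι ⊕ κ → ℝ) (j : J) :
    ∑ t, x t * gen a w R t (Sum.inl j) = ∑ i, (if R i = j then x (Sum.inl i) else 0) := by
  rw [Fintype.sum_sum_type]
  have h1 : ∑ s : κ, x (Sum.inr s) * gen a w R (Sum.inr s) (Sum.inl j) = 0 :=
    Finset.sum_eq_zero fun s _ => by
      show _ * (0 : ℝ) = 0
      exact mul_zero _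
  rw [h1, add_zero]
  refine Finset.sum_congr rfl fun i _ => ?_
  show _ * (if R i = j then (1 : ℝ) else 0) = _
  split_ifs <;> ring

lemma sum_gen_some (a : ι → J → κ) (w : ι → J → ℝ) (R : ι → J) (x : ι ⊕ κ → ℝ) (s : κ) :
    ∑ t, x t * gen a w R t (Sum.inr (some s))
      = ∑ i, (if a i (R i) = s then x (Sum.inl i) else 0) + x (Sum.inr s) := by
  rw [Fintype.sum_sum_type]
  have h1 : ∑ s' : κ, x (Sum.inr s') * gen a w R (Sum.inr s') (Sum.inr (some s))
      = x (Sum.inr s) := by
    have h2 : ∀ s' : κ, x (Sum.inr s') * gen a w R (Sum.inr s') (Sum.inr (some s))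
        = if s' = s then x (Sum.inr s') else 0 := by
      intro s'
      show _ * (if s' = s then (1 : ℝ) else 0) = _
      split_ifs <;> ring
    rw [Finset.sum_congr rfl fun s' _ => h2 s', Finset.sum_ite_eq' Finset.univ s]
    simp
  rw [h1]
  congr 1
  refine Finset.sum_congr rfl fun i _ => ?_
  show _ * (if a i (R i) = s then (1 : ℝ) else 0) = _
  split_ifs <;> ring

lemma sum_gen_none (a : ι → J → κ) (w : ι → J → ℝ) (R : ι → J) (x : ι ⊕ κ → ℝ) :
    ∑ t, x t * gen a w R t (Sum.inr none) = ∑ i, x (Sum.inl i) * w i (R i) := by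
  rw [Fintype.sum_sum_type]
  have h1 : ∑ s : κ, x (Sum.inr s) * gen a w R (Sum.inr s) (Sum.inr none) = 0 :=
    Finset.sum_eq_zero fun s _ => by
      show _ * (0 : ℝ) = 0
      exact mul_zero _
  rw [h1, add_zero]
  rfl

lemma dot_split (r y : (J ⊕ Option κ) → ℝ) :
    dot r y = ∑ j, r (Sum.inl j) * y (Sum.inl j)
      + (r (Sum.inr none) * y (Sum.inr none)
        + ∑ s, r (Sum.inr (some s)) * y (Sum.inr (some s))) := by
  unfold dot
  rw [Fintype.sum_sum_type, Fintype.sum_option]

lemma dot_gen_inl (a : ι → J → κ) (w : ι → J → ℝ) (R : ι → J) (r : (J ⊕ Option κ) → ℝ) (i : ι) :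
    dot r (gen a w R (Sum.inl i))
      = r (Sum.inl (R i)) + r (Sum.inr (some (a i (R i)))) + r (Sum.inr none) * w i (R i) := by
  rw [dot_split]
  have h1 : ∑ j, r (Sum.inl j) * gen a w R (Sum.inl i) (Sum.inl j) = r (Sum.inl (R i)) := by
    have h2 : ∀ j, r (Sum.inl j) * gen a w R (Sum.inl i) (Sum.inl j)
        = if R i = j then r (Sum.inl j) else 0 := by
      intro j
      show _ * (if R i = j then (1 : ℝ) else 0) = _
      split_ifs <;> ring
    rw [Finset.sum_congr rfl fun j _ => h2 j, Finset.sum_ite_eq Finset.univ (R i)]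
    simp
  have h3 : ∑ s, r (Sum.inr (some s)) * gen a w R (Sum.inl i) (Sum.inr (some s))
      = r (Sum.inr (some (a i (R i)))) := by
    have h2 : ∀ s, r (Sum.inr (some s)) * gen a w R (Sum.inl i) (Sum.inr (some s))
        = if a i (R i) = s then r (Sum.inr (some s)) else 0 := by
      intro s
      show _ * (if a i (R i) = s then (1 : ℝ) else 0) = _
      split_ifs <;> ring
    rw [Finset.sum_congr rfl fun s _ => h2 s, Finset.sum_ite_eq Finset.univ (a i (R i))]
    simp
  rw [h1, h3]
  show _ + (r (Sum.inr none) * w i (R i) + _) = _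
  ring

lemma dot_gen_inr (a : ι → J → κ) (w : ι → J → ℝ) (R : ι → J) (r : (J ⊕ Option κ) → ℝ) (s : κ) :
    dot r (gen a w R (Sum.inr s)) = r (Sum.inr (some s)) := by
  rw [dot_split]
  have h1 : ∑ j, r (Sum.inl j) * gen a w R (Sum.inr s) (Sum.inl j) = 0 :=
    Finset.sum_eq_zero fun j _ => by
      show _ * (0 : ℝ) = 0
      exact mul_zero _
  have h3 : ∑ s', r (Sum.inr (some s')) * gen a w R (Sum.inr s) (Sum.inr (some s'))
      = r (Sum.inr (some s)) := by
    have h2 : ∀ s', r (Sum.inr (some s')) * gen a w R (Sum.inr s) (Sum.inr (some s'))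
        = if s = s' then r (Sum.inr (some s')) else 0 := by
      intro s'
      show _ * (if s = s' then (1 : ℝ) else 0) = _
      split_ifs <;> ring
    rw [Finset.sum_congr rfl fun s' _ => h2 s', Finset.sum_ite_eq Finset.univ s]
    simp
  rw [h1, h3]
  show 0 + (r (Sum.inr none) * 0 + _) = _
  ring

lemma dot_tgt (r : (J ⊕ Option κ) → ℝ) (θ : ℝ) :
    dot r (tgt θ) = ∑ j, r (Sum.inl j) + (r (Sum.inr none) * θ + ∑ s, r (Sum.inr (some s))) := by
  rw [dot_split]
  show ∑ j, r (Sum.inl j) * 1 + (r (Sum.inr none) * θ + ∑ s, r (Sum.inr (some s)) * 1) = _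
  simp only [mul_one]

lemma dot_dirp (r : (J ⊕ Option κ) → ℝ) : dot r dirp = r (Sum.inr none) := by
  rw [dot_split]
  show ∑ j, r (Sum.inl j) * 0 + (r (Sum.inr none) * 1 + ∑ s : κ, r (Sum.inr (some s)) * 0) = _
  simp

section main

variable (a : ι → J → κ) (w : ι → J → ℝ) (θ : ℝ)

/-- The value of the least squares problem. -/
def val (R : ι → J) (x : ι ⊕ κ → ℝ) (μ : ℝ) : ℝ :=
  dot (resid (gen a w R) (tgt θ) dirp x μ) (resid (gen a w R) (tgt θ) dirp x μ)

/-- Global optimality over all rainbow choices. -/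
def GOpt (R : ι → J) (x : ι ⊕ κ → ℝ) (μ : ℝ) : Prop :=
  (∀ t, 0 ≤ x t) ∧ ∀ (R' : ι → J) (x' : ι ⊕ κ → ℝ) (μ' : ℝ), (∀ t, 0 ≤ x' t) →
    val a w θ R x μ ≤ val a w θ R' x' μ'

/-- A small transversal exists. -/
def Good : Prop :=
  ∃ r : J → ι, Function.Injective r ∧ Function.Injective (fun j => a (r j) j) ∧
      ∑ j, w (r j) j ≤ θ

variable {a w θ}

lemma GOpt.isOpt {R : ι → J} {x : ι ⊕ κ → ℝ} {μ : ℝ} (h : GOpt a w θ R x μ) :
    IsOpt (gen a w R) (tgt θ) dirp x μ :=
  ⟨h.1, fun x' μ' hx' => h.2 R x' μ' hx'⟩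

lemma good_of_eq {R : ι → J} {x : ι ⊕ κ → ℝ} {μ τ : ℝ} (hx : ∀ t, 0 ≤ x t) (hτ : 0 ≤ τ)
    (hμ : 0 < μ) (h : ∀ d, ∑ t, x t * gen a w R t d + τ * dirp d = μ * tgt θ d) :
    Good a w θ := by
  refine exists_integral a w R (fun i => x (Sum.inl i)) (fun s => x (Sum.inr s)) μ θ
    (fun i => hx _) (fun s => hx _) hμ ?_ ?_ ?_
  · intro j
    have h1 := h (Sum.inl j)
    rw [sum_gen_inl] at h1
    have h2 : τ * dirp (Sum.inl j : J ⊕ Option κ) = 0 := by
      show τ * 0 = 0
      ring
    have h3 : μ * tgt θ (Sum.inl j : J ⊕ Option κ) = μ := by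
      show μ * 1 = μ
      ring
    rw [h2, h3, add_zero] at h1
    exact h1
  · intro s
    have h1 := h (Sum.inr (some s))
    rw [sum_gen_some] at h1
    have h2 : τ * dirp (Sum.inr (some s) : J ⊕ Option κ) = 0 := by
      show τ * 0 = 0
      ring
    have h3 : μ * tgt θ (Sum.inr (some s) : J ⊕ Option κ) = μ := by
      show μ * 1 = μ
      ring
    rw [h2, h3, add_zero] at h1
    exact h1
  · have h1 := h (Sum.inr none)
    rw [sum_gen_none] at h1
    have h2 : τ * dirp (Sum.inr none : J ⊕ Option κ) = τ := by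
      show τ * 1 = τ
      ring
    have h3 : μ * tgt θ (Sum.inr none : J ⊕ Option κ) = μ * θ := rfl
    rw [h2, h3] at h1
    linarith

lemma ker_trivial [Nonempty J] (hbad : ¬ Good a w θ) (R : ι → J) (x : ι ⊕ κ → ℝ) (μ : ℝ)
    (hx : ∀ t, 0 ≤ x t) (h : ∀ d, ∑ t, x t * gen a w R t d = μ * tgt θ d) :
    x = 0 ∧ μ = 0 := by
  have hμ : μ ≤ 0 := by
    by_contra hcon
    push Not at hcon
    exact hbad (good_of_eq (τ := 0) hx (le_refl 0) hcon (fun d => by rw [zero_mul, add_zero]; exact h d))
  have hcol : ∀ j, ∑ i, (if R i = j then x (Sum.inl i) else 0) = μ := by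
    intro j
    have h1 := h (Sum.inl j)
    rw [sum_gen_inl] at h1
    rw [h1]
    show μ * 1 = μ
    ring
  have hsym : ∀ s, ∑ i, (if a i (R i) = s then x (Sum.inl i) else 0) + x (Sum.inr s) = μ := by
    intro s
    have h1 := h (Sum.inr (some s))
    rw [sum_gen_some] at h1
    rw [h1]
    show μ * 1 = μ
    ring
  have hμ0 : μ = 0 := by
    apply le_antisymm hμ
    obtain ⟨j⟩ := (inferInstance : Nonempty J)
    rw [← hcol j]
    refine Finset.sum_nonneg fun i _ => ?_
    split_ifs
    · exact hx _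
    · exact le_refl _
  refine ⟨?_, hμ0⟩
  funext t
  rcases t with i | s
  · have h1 := hcol (R i)
    rw [hμ0, Finset.sum_eq_zero_iff_of_nonneg] at h1
    · have h2 := h1 i (Finset.mem_univ i)
      rwa [if_pos rfl] at h2
    · intro i' _
      split_ifs
      · exact hx _
      · exact le_refl _
  · have h1 := hsym s
    rw [hμ0] at h1
    have h2 : 0 ≤ ∑ i, (if a i (R i) = s then x (Sum.inl i) else 0) := by
      refine Finset.sum_nonneg fun i _ => ?_
      split_ifs
      · exact hx _
      · exact le_refl _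
    have h3 := hx (Sum.inr s)
    show x (Sum.inr s) = 0
    linarith

lemma exists_gopt [Nonempty J] (hbad : ¬ Good a w θ) :
    ∃ (R : ι → J) (x : ι ⊕ κ → ℝ) (μ : ℝ), GOpt a w θ R x μ := by
  classical
  have h1 : ∀ R : ι → J, ∃ (x : ι ⊕ κ → ℝ) (μ : ℝ), IsOpt (gen a w R) (tgt θ) dirp x μ :=
    fun R => exists_isOpt (gen a w R) (tgt θ) dirp (ker_trivial hbad R)
  choose X M hXM using h1
  obtain ⟨j₀⟩ := (inferInstance : Nonempty J)
  have : Nonempty (ι → J) := ⟨fun _ => j₀⟩
  obtain ⟨R₀, hR₀⟩ := Finite.exists_min (fun R : ι → J => val a w θ R (X R) (M R))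
  refine ⟨R₀, X R₀, M R₀, (hXM R₀).1, ?_⟩
  intro R' x' μ' hx'
  exact (hR₀ R').trans ((hXM R').2 x' μ' hx')

/-- The number of nonzero coefficients. -/
noncomputable def nsupp (x : ι ⊕ κ → ℝ) : ℕ := (univ.filter fun t => x t ≠ 0).card

lemma exists_gopt_min [Nonempty J] (hbad : ¬ Good a w θ) :
    ∃ (R : ι → J) (x : ι ⊕ κ → ℝ) (μ : ℝ), GOpt a w θ R x μ ∧
      ∀ (R' : ι → J) (x' : ι ⊕ κ → ℝ) (μ' : ℝ), GOpt a w θ R' x' μ' → nsupp x ≤ nsupp x' := by
  classical
  have hex : ∃ N : ℕ, ∃ (R : ι → J) (x : ι ⊕ κ → ℝ) (μ : ℝ), GOpt a w θ R x μ ∧ nsupp x = N := by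
    obtain ⟨R, x, μ, h⟩ := exists_gopt hbad
    exact ⟨_, R, x, μ, h, rfl⟩
  obtain ⟨R, x, μ, h, hN⟩ := Nat.find_spec hex
  refine ⟨R, x, μ, h, ?_⟩
  intro R' x' μ' h'
  rw [hN]
  exact Nat.find_min' hex ⟨R', x', μ', h', rfl⟩

/-- In a global optimum with nonzero residual every row is used. -/
lemma all_used (ha : ∀ i, Function.Injective (a i)) (hθ : ∀ i, ∑ j, w i j < θ)
    {R : ι → J} {x : ι ⊕ κ → ℝ} {μ : ℝ} (h : GOpt a w θ R x μ)
    (hr : resid (gen a w R) (tgt θ) dirp x μ ≠ 0) (i : ι) : x (Sum.inl i) ≠ 0 := by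
  classical
  intro hzero
  set r := resid (gen a w R) (tgt θ) dirp x μ with hrdef
  have hself : 0 < dot r r := dot_self_pos hr
  have hγ : r (Sum.inr none) < 0 := by
    have h1 := h.isOpt.dot_self
    rw [← hrdef, dot_dirp] at h1
    linarith
  have hb : dot r (tgt θ) = 0 := h.isOpt.dot_b
  have hβ : ∀ s, r (Sum.inr (some s)) ≤ 0 := by
    intro s
    have h1 := h.isOpt.dot_le (Sum.inr s)
    rw [← hrdef, dot_gen_inr] at h1
    exact h1
  -- changing the choice in row `i` does not change the residual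
  have hres : ∀ j, resid (gen a w (Function.update R i j)) (tgt θ) dirp x μ = r := by
    intro j
    rw [hrdef]
    funext d
    unfold resid
    congr 1
    refine Finset.sum_congr rfl fun t _ => ?_
    rcases t with i' | s
    · by_cases hi : i' = i
      · subst hi
        rw [hzero, zero_mul, zero_mul]
      · congr 1
        rcases d with j' | (_ | s)
        · show (if Function.update R i j i' = j' then (1:ℝ) else 0) = if R i' = j' then 1 else 0
          rw [Function.update_of_ne hi]
        · show w i' (Function.update R i j i') = w i' (R i')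
          rw [Function.update_of_ne hi]
        · show (if a i' (Function.update R i j i') = s then (1:ℝ) else 0)
            = if a i' (R i') = s then 1 else 0
          rw [Function.update_of_ne hi]
    · rcases d with j' | (_ | s') <;> rfl
  have hgo : ∀ j, GOpt a w θ (Function.update R i j) x μ := by
    intro j
    refine ⟨h.1, ?_⟩
    intro R' x' μ' hx'
    have h1 := h.2 R' x' μ' hx'
    unfold val at h1 ⊢
    rw [hres j]
    exact h1
  have hle : ∀ j, r (Sum.inl j) + r (Sum.inr (some (a i j))) + r (Sum.inr none) * w i j ≤ 0 := by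
    intro j
    have h1 := (hgo j).isOpt.dot_le (Sum.inl i)
    rw [hres j, dot_gen_inl, Function.update_self] at h1
    exact h1
  have hsum : ∑ j, (r (Sum.inl j) + r (Sum.inr (some (a i j))) + r (Sum.inr none) * w i j) ≤ 0 :=
    Finset.sum_nonpos fun j _ => hle j
  rw [Finset.sum_add_distrib, Finset.sum_add_distrib, ← Finset.mul_sum] at hsum
  rw [dot_tgt] at hb
  have hsub : ∑ s, r (Sum.inr (some s)) ≤ ∑ j, r (Sum.inr (some (a i j))) := by
    have h1 : ∑ j, r (Sum.inr (some (a i j)))
        = ∑ s ∈ univ.image (a i), r (Sum.inr (some s)) :=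
      (Finset.sum_image (f := fun s => r (Sum.inr (some s))) fun j _ j' _ hjj => ha i hjj).symm
    rw [h1, ← Finset.sum_sdiff (Finset.subset_univ (univ.image (a i)))]
    have h2 : ∑ s ∈ univ \ univ.image (a i), r (Sum.inr (some s)) ≤ 0 :=
      Finset.sum_nonpos fun s _ => hβ s
    linarith
  have h3 : r (Sum.inr none) * θ < r (Sum.inr none) * ∑ j, w i j :=
    mul_lt_mul_of_neg_left (hθ i) hγ
  linarith

/-- The weighted Drisko theorem, strict form. -/
theorem good_of_lt [Nonempty J] (ha : ∀ i, Function.Injective (a i)) (hw : ∀ i j, 0 ≤ w i j)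
    (hθ : ∀ i, ∑ j, w i j < θ) (hcard : Fintype.card ι + 1 = 2 * Fintype.card J) :
    Good a w θ := by
  classical
  by_contra hbad
  have hι : Nonempty ι := by
    rw [← Fintype.card_pos_iff]
    have : 0 < Fintype.card J := Fintype.card_pos
    omega
  have hθ0 : 0 < θ := by
    obtain ⟨i⟩ := hι
    exact lt_of_le_of_lt (Finset.sum_nonneg fun j _ => hw i j) (hθ i)
  obtain ⟨R, x, μ, hG, hmin⟩ := exists_gopt_min hbad
  set r := resid (gen a w R) (tgt θ) dirp x μ with hrdef
  have hb : dot r (tgt θ) = 0 := hG.isOpt.dot_b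
  have hβ : ∀ s, r (Sum.inr (some s)) ≤ 0 := by
    intro s
    have h1 := hG.isOpt.dot_le (Sum.inr s)
    rw [← hrdef, dot_gen_inr] at h1
    exact h1
  -- coordinates of the residual
  have hrinl : ∀ j, r (Sum.inl j) = μ - ∑ i, (if R i = j then x (Sum.inl i) else 0) := by
    intro j
    rw [hrdef]
    unfold resid
    rw [sum_gen_inl]
    show μ * 1 - 0 - _ = _
    ring
  have hrsome : ∀ s, r (Sum.inr (some s))
      = μ - (∑ i, (if a i (R i) = s then x (Sum.inl i) else 0) + x (Sum.inr s)) := by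
    intro s
    rw [hrdef]
    unfold resid
    rw [sum_gen_some]
    show μ * 1 - 0 - _ = _
    ring
  have hrnone : r (Sum.inr none) = μ * θ - 1 - ∑ i, x (Sum.inl i) * w i (R i) := by
    rw [hrdef]
    unfold resid
    rw [sum_gen_none]
    rfl
  -- the residual is nonzero
  have hr0 : r ≠ 0 := by
    intro h0
    have h1 : μ * θ = 1 + ∑ i, x (Sum.inl i) * w i (R i) := by
      have := congrFun h0 (Sum.inr none)
      rw [hrnone, Pi.zero_apply] at this
      linarith
    have h2 : 0 ≤ ∑ i, x (Sum.inl i) * w i (R i) :=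
      Finset.sum_nonneg fun i _ => mul_nonneg (hG.1 _) (hw _ _)
    have hμ : 0 < μ := by
      by_contra hcon
      push Not at hcon
      have := mul_nonpos_of_nonpos_of_nonneg hcon hθ0.le
      linarith
    refine hbad (good_of_eq (τ := 1) hG.1 zero_le_one hμ (R := R) ?_)
    intro d
    have h3 := congrFun h0 d
    rw [hrdef] at h3
    unfold resid at h3
    rw [Pi.zero_apply] at h3
    linarith
  have hself : 0 < dot r r := dot_self_pos hr0
  have hγ : r (Sum.inr none) < 0 := by
    have h1 := hG.isOpt.dot_self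
    rw [← hrdef, dot_dirp] at h1
    linarith
  have hused : ∀ i, x (Sum.inl i) ≠ 0 := fun i => all_used ha hθ hG hr0 i
  -- μ ≥ 0
  have hμ : 0 ≤ μ := by
    by_contra hcon
    push Not at hcon
    have h1 : ∀ j, r (Sum.inl j) ≤ 0 := by
      intro j
      rw [hrinl]
      have : 0 ≤ ∑ i, (if R i = j then x (Sum.inl i) else 0) := by
        refine Finset.sum_nonneg fun i _ => ?_
        split_ifs
        · exact hG.1 _
        · exact le_refl _
      linarith
    rw [dot_tgt] at hb
    have h2 : ∑ j, r (Sum.inl j) ≤ 0 := Finset.sum_nonpos fun j _ => h1 j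
    have h3 : ∑ s, r (Sum.inr (some s)) ≤ 0 := Finset.sum_nonpos fun s _ => hβ s
    have h4 : r (Sum.inr none) * θ < 0 := mul_neg_of_neg_of_pos hγ hθ0
    linarith
  -- the slack symbols
  let P : Finset κ := univ.filter fun s => x (Sum.inr s) ≠ 0
  -- linear independence
  let u : (ι ⊕ {s // s ∈ P}) ⊕ Unit → (J ⊕ Option κ) → ℝ := fun t =>
    match t with
    | Sum.inl (Sum.inl i) => gen a w R (Sum.inl i)
    | Sum.inl (Sum.inr s) => gen a w R (Sum.inr s.1)
    | Sum.inr _ => tgt θ
  have hperp : ∀ t, dot r (u t) = 0 := by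
    rintro ((i | s) | _)
    · exact hG.isOpt.dot_eq (Sum.inl i) (hused i)
    · exact hG.isOpt.dot_eq (Sum.inr s.1) (Finset.mem_filter.1 s.2).2
    · exact hb
  have hLI : LinearIndependent ℝ u := by
    by_contra hdep
    rw [Fintype.not_linearIndependent_iff] at hdep
    obtain ⟨g, hg, t₀, ht₀⟩ := hdep
    -- the direction
    let g' : ι ⊕ κ → ℝ := fun t =>
      match t with
      | Sum.inl i => g (Sum.inl (Sum.inl i))
      | Sum.inr s => if hs : s ∈ P then g (Sum.inl (Sum.inr ⟨s, hs⟩)) else 0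
    have hgd : ∀ d, ∑ t, g' t * gen a w R t d + g (Sum.inr ()) * tgt θ d = 0 := by
      intro d
      have h1 := congrFun hg d
      rw [Finset.sum_apply, Fintype.sum_sum_type, Fintype.sum_sum_type] at h1
      rw [Fintype.sum_sum_type]
      have h2 : ∑ s : κ, g' (Sum.inr s) * gen a w R (Sum.inr s) d
          = ∑ s : {s // s ∈ P}, g (Sum.inl (Sum.inr s)) * gen a w R (Sum.inr s.1) d := by
        rw [← Finset.sum_subset (Finset.subset_univ P)]
        · rw [← Finset.sum_coe_sort P]
          refine Finset.sum_congr rfl fun s _ => ?_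
          show (if hs : s.1 ∈ P then g (Sum.inl (Sum.inr ⟨s.1, hs⟩)) else 0) * _ = _
          rw [dif_pos s.2]
        · intro s _ hs
          show (if hs : s ∈ P then g (Sum.inl (Sum.inr ⟨s, hs⟩)) else 0) * _ = _
          rw [dif_neg hs, zero_mul]
      rw [h2]
      have h3 : ∑ t : Unit, (g (Sum.inr t) • u (Sum.inr t)) d = g (Sum.inr ()) * tgt θ d := by
        simp [u]
      rw [h3] at h1
      simpa only [Pi.smul_apply, smul_eq_mul, u, Pi.zero_apply, add_assoc] using h1
    have hgne : ∃ t, g' t ≠ 0 := by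
      by_contra hcon
      push Not at hcon
      obtain ⟨j₀⟩ := (inferInstance : Nonempty J)
      have h1 := hgd (Sum.inl j₀)
      have h2 : ∑ t, g' t * gen a w R t (Sum.inl j₀) = 0 :=
        Finset.sum_eq_zero fun t _ => by rw [hcon t, zero_mul]
      rw [h2, zero_add] at h1
      have h3 : g (Sum.inr ()) = 0 := by
        have : g (Sum.inr ()) * 1 = 0 := h1
        linarith
      apply ht₀
      rcases t₀ with (i | s) | ⟨⟩
      · exact hcon (Sum.inl i)
      · have h4 := hcon (Sum.inr s.1)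
        have h5 : g' (Sum.inr s.1) = g (Sum.inl (Sum.inr s)) := by
          show (if hs : s.1 ∈ P then g (Sum.inl (Sum.inr ⟨s.1, hs⟩)) else 0) = _
          rw [dif_pos s.2]
        rw [← h5]; exact h4
      · exact h3
    have hgsupp : ∀ t, g' t ≠ 0 → x t ≠ 0 := by
      rintro (i | s) ht
      · exact hused i
      · by_contra hcon
        apply ht
        show (if hs : s ∈ P then g (Sum.inl (Sum.inr ⟨s, hs⟩)) else 0) = 0
        rw [dif_neg]
        intro hs
        exact (Finset.mem_filter.1 hs).2 hcon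
    obtain ⟨t, ht1, ht2⟩ := exists_reduce hG.1 hgsupp hgne
    have hG' : GOpt a w θ R (fun i => x i + t * g' i) (μ - t * g (Sum.inr ())) := by
      refine ⟨ht1, ?_⟩
      intro R' x' μ' hx'
      have h1 := hG.2 R' x' μ' hx'
      have h2 : resid (gen a w R) (tgt θ) dirp (fun i => x i + t * g' i)
          (μ - t * g (Sum.inr ())) = resid (gen a w R) (tgt θ) dirp x μ := by
        funext d
        unfold resid
        have h3 : ∑ i, (x i + t * g' i) * gen a w R i d
            = ∑ i, x i * gen a w R i d + t * ∑ i, g' i * gen a w R i d := by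
          rw [Finset.mul_sum, ← Finset.sum_add_distrib]
          exact Finset.sum_congr rfl fun i _ => by ring
        rw [h3]
        have h4 := hgd d
        have h5 : ∑ i, g' i * gen a w R i d = - (g (Sum.inr ()) * tgt θ d) := by linarith
        rw [h5]
        ring
      unfold val at h1 ⊢
      rw [h2]
      exact h1
    have h6 := hmin R _ _ hG'
    exact (not_lt.2 h6) ht2
  -- dimension count
  have hdim : Fintype.card ι + P.card + 1 + 1 ≤ Fintype.card J + (Fintype.card κ + 1) := by
    have h1 : LinearIndependent ℝ (fun o : Option ((ι ⊕ {s // s ∈ P}) ⊕ Unit) =>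
        o.casesOn' r u) := by
      rw [linearIndependent_option']
      refine ⟨hLI, ?_⟩
      intro hmem
      have h2 : ∀ y ∈ Submodule.span ℝ (Set.range u), dot r y = 0 := by
        intro y hy
        induction hy using Submodule.span_induction with
        | mem y hy =>
          obtain ⟨t, rfl⟩ := hy
          exact hperp t
        | zero => simp [dot]
        | add y z _ _ hy hz =>
          have : dot r (y + z) = dot r y + dot r z := dot_add_right r y z
          rw [this, hy, hz, add_zero]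
        | smul c y _ hy =>
          have : dot r (c • y) = c * dot r y := dot_smul_right r y c
          rw [this, hy, mul_zero]
      have h3 := h2 r hmem
      linarith
    have h4 := h1.fintype_card_le_finrank
    rw [Module.finrank_fintype_fun_eq_card] at h4
    simpa [Fintype.card_option, Fintype.card_sum] using h4
  -- the counting contradiction
  have hPc : Fintype.card J ≤ Pᶜ.card := by
    rw [Finset.card_compl]
    omega
  have hsumY : ∑ j, ∑ i, (if R i = j then x (Sum.inl i) else 0) = ∑ i, x (Sum.inl i) := by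
    rw [Finset.sum_comm]
    refine Finset.sum_congr rfl fun i _ => ?_
    rw [Finset.sum_ite_eq Finset.univ (R i)]
    simp
  have hsumS : ∑ s, ∑ i, (if a i (R i) = s then x (Sum.inl i) else 0)
      = ∑ i, x (Sum.inl i) := by
    rw [Finset.sum_comm]
    refine Finset.sum_congr rfl fun i _ => ?_
    rw [Finset.sum_ite_eq Finset.univ (a i (R i))]
    simp
  have hYs : ∀ s, 0 ≤ ∑ i, (if a i (R i) = s then x (Sum.inl i) else 0) := by
    intro s
    refine Finset.sum_nonneg fun i _ => ?_
    split_ifs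
    · exact hG.1 _
    · exact le_refl _
  have hge : (Fintype.card J : ℝ) * μ ≤ ∑ i, x (Sum.inl i) := by
    rw [← hsumS]
    calc (Fintype.card J : ℝ) * μ ≤ (Pᶜ.card : ℝ) * μ := by
          apply mul_le_mul_of_nonneg_right _ hμ
          exact_mod_cast hPc
      _ = ∑ s ∈ Pᶜ, μ := by rw [Finset.sum_const, nsmul_eq_mul]
      _ ≤ ∑ s ∈ Pᶜ, ∑ i, (if a i (R i) = s then x (Sum.inl i) else 0) := by
          refine Finset.sum_le_sum fun s hs => ?_
          have h1 : x (Sum.inr s) = 0 := by
            by_contra hcon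
            rw [Finset.mem_compl] at hs
            exact hs (Finset.mem_filter.2 ⟨Finset.mem_univ _, hcon⟩)
          have h2 := hβ s
          rw [hrsome, h1] at h2
          linarith
      _ ≤ ∑ s, ∑ i, (if a i (R i) = s then x (Sum.inl i) else 0) :=
          Finset.sum_le_sum_of_subset_of_nonneg (Finset.subset_univ _) fun s _ _ => hYs s
  have hα : ∑ j, r (Sum.inl j) ≤ 0 := by
    rw [Finset.sum_congr rfl fun j _ => hrinl j, Finset.sum_sub_distrib, hsumY,
      Finset.sum_const, nsmul_eq_mul, Finset.card_univ]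
    linarith
  rw [dot_tgt] at hb
  have h3 : ∑ s, r (Sum.inr (some s)) ≤ 0 := Finset.sum_nonpos fun s _ => hβ s
  have h4 : r (Sum.inr none) * θ < 0 := mul_neg_of_neg_of_pos hγ hθ0
  linarith

end main

end Pool.Agent.Drisko49
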