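import Mathlib

/-!
Galvin's kernel method for arrays: the rows of an array are processed one by one, row `i` is given
to a kernel (stable matching) of the pairs (transversal, column) that are still open and whose
symbol in row `i` is not yet used by the transversal.
-/

set_option autoImplicit false

namespace Pool.Agent.Drisko49.Kernel

open Finset

/-- Kernels in the line graph of a bipartite graph with the orientation given by labels: larger
labels first at the left vertex, smaller labels first at the right vertex. -/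
theorem exists_kernel {α β : Type*} [DecidableEq α] [DecidableEq β] (c : α → β → ℕ)
    (hc1 : ∀ a, Function.Injective (c a)) (hc2 : ∀ b, Function.Injective (fun a => c a b))
    (U : Finset (α × β)) :
    ∃ K ⊆ U, (∀ e ∈ K, ∀ e' ∈ K, e.1 = e'.1 → e = e') ∧ (∀ e ∈ K, ∀ e' ∈ K, e.2 = e'.2 → e = e') ∧
      ∀ e ∈ U, e ∈ K ∨ (∃ e' ∈ K, e'.1 = e.1 ∧ c e.1 e.2 < c e'.1 e'.2) ∨
        (∃ e' ∈ K, e'.2 = e.2 ∧ c e'.1 e'.2 < c e.1 e.2) := by
  classical
  induction h : U.card using Nat.strong_induction_on generalizing U with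
  | _ N ih =>
  let top : α × β → Prop := fun e => e ∈ U ∧ ∀ x ∈ U, x.1 = e.1 → c x.1 x.2 ≤ c e.1 e.2
  by_cases hcase : ∃ e e', top e ∧ top e' ∧ e.2 = e'.2 ∧ e.1 ≠ e'.1
  · obtain ⟨e, e', he, he', h2, h1⟩ := hcase
    -- we may assume `c e < c e'`
    have key : ∀ e e', top e → top e' → e.2 = e'.2 → e.1 ≠ e'.1 →
        c e.1 e.2 < c e'.1 e'.2 →
        ∃ K ⊆ U, (∀ e ∈ K, ∀ e' ∈ K, e.1 = e'.1 → e = e') ∧
          (∀ e ∈ K, ∀ e' ∈ K, e.2 = e'.2 → e = e') ∧
          ∀ e ∈ U, e ∈ K ∨ (∃ e' ∈ K, e'.1 = e.1 ∧ c e.1 e.2 < c e'.1 e'.2) ∨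
            (∃ e' ∈ K, e'.2 = e.2 ∧ c e'.1 e'.2 < c e.1 e.2) := by
      intro e e' he he' h2 h1 hlt
      obtain ⟨K, hKU, hK1, hK2, hK3⟩ := ih (U.erase e').card
        (by rw [← h]; exact Finset.card_erase_lt_of_mem he'.1) (U.erase e') rfl
      refine ⟨K, hKU.trans (Finset.erase_subset _ _), hK1, hK2, ?_⟩
      intro x hx
      by_cases hxe : x = e'
      · subst hxe
        right; right
        have hne : e ≠ x := fun hh => h1 (by rw [hh])
        rcases hK3 e (Finset.mem_erase.2 ⟨hne, he.1⟩) with h | ⟨y, hy, hy1, hy2⟩ | ⟨y, hy, hy1, hy2⟩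
        · exact ⟨e, h, h2, hlt⟩
        · exact absurd (he.2 y (Finset.mem_of_mem_erase (hKU hy)) hy1) (by omega)
        · exact ⟨y, hy, hy1.trans h2, hy2.trans hlt⟩
      · exact hK3 x (Finset.mem_erase.2 ⟨hxe, hx⟩)
    rcases lt_trichotomy (c e.1 e.2) (c e'.1 e'.2) with hlt | heq | hgt
    · exact key e e' he he' h2 h1 hlt
    · rw [h2] at heq
      exact absurd (hc2 e'.2 heq) h1
    · exact key e' e he' he h2.symm (Ne.symm h1) hgt
  · push Not at hcase
    refine ⟨U.filter top, Finset.filter_subset _ _, ?_, ?_, ?_⟩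
    · intro e he e' he' h1
      have ht := (Finset.mem_filter.1 he).2
      have ht' := (Finset.mem_filter.1 he').2
      have h3 := ht.2 e' ht'.1 h1.symm
      have h4 := ht'.2 e ht.1 h1
      have h5 : c e.1 e.2 = c e.1 e'.2 := by
        have := le_antisymm h4 h3
        rw [this, h1]
      exact Prod.ext h1 (hc1 _ h5)
    · intro e he e' he' h2
      have ht := (Finset.mem_filter.1 he).2
      have ht' := (Finset.mem_filter.1 he').2
      exact Prod.ext (hcase e e' ht ht' h2) h2
    · intro e he
      by_cases htop : top e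
      · exact Or.inl (Finset.mem_filter.2 ⟨he, htop⟩)
      · right; left
        obtain ⟨t, htm, htmax⟩ := Finset.exists_max_image (U.filter (fun x => x.1 = e.1))
          (fun x => c x.1 x.2) ⟨e, Finset.mem_filter.2 ⟨he, rfl⟩⟩
        have ht1 := (Finset.mem_filter.1 htm).1
        have ht2 := (Finset.mem_filter.1 htm).2
        have htt : top t := ⟨ht1, fun x hx hx1 => htmax x (Finset.mem_filter.2 ⟨hx, hx1.trans ht2⟩)⟩
        refine ⟨t, Finset.mem_filter.2 ⟨ht1, htt⟩, ht2, ?_⟩
        have hle := htmax e (Finset.mem_filter.2 ⟨he, rfl⟩)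
        rcases lt_or_eq_of_le hle with hl | hl
        · exact hl
        · exfalso
          apply htop
          refine ⟨he, fun x hx hx1 => ?_⟩
          rw [hl]
          exact htmax x (Finset.mem_filter.2 ⟨hx, hx1⟩)

/-- The state of the process after the rows `0, …, i - 1`; the pairs in `p` are filled from the
beginning with rows that are at least `r`. -/
structure State {N n : ℕ} {S : Type*} (A : ℕ → Fin n → S) (c : Fin N → Fin n → ℕ) (r : ℕ)
    (p : Fin N → Fin n → Option ℕ) (i : ℕ) (ρ : Fin N → Fin n → Option ℕ) : Prop where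
  ext : ∀ s j a, p s j = some a → ρ s j = some a
  lt : ∀ s j a, ρ s j = some a → (a < i ∧ p s j = none) ∨ p s j = some a
  row : ∀ s j j' a, ρ s j = some a → ρ s j' = some a → j = j'
  col : ∀ s s' j a, ρ s j = some a → ρ s' j = some a → s = s'
  sym : ∀ s j j' a b, ρ s j = some a → ρ s j' = some b → A a j = A b j' → j = j'
  open_ : ∀ s j, ρ s j = none → ∀ a < i, (∃ j', c s j < c s j' ∧ ρ s j' = some a) ∨
    (∃ s', c s' j < c s j ∧ ρ s' j = some a) ∨
    (∃ j' b, j' ≠ j ∧ ρ s j' = some b ∧ A a j = A b j')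

/-- A consistent plan. -/
structure Plan {N n : ℕ} {S : Type*} (A : ℕ → Fin n → S) (r m : ℕ)
    (p : Fin N → Fin n → Option ℕ) : Prop where
  ge : ∀ s j a, p s j = some a → r ≤ a
  lt : ∀ s j a, p s j = some a → a < m
  row : ∀ s j j' a, p s j = some a → p s j' = some a → j = j'
  col : ∀ s s' j a, p s j = some a → p s' j = some a → s = s'
  sym : ∀ s j j' a b, p s j = some a → p s j' = some b → A a j = A b j' → j = j'

theorem exists_state {N n : ℕ} {S : Type*} (A : ℕ → Fin n → S) (c : Fin N → Fin n → ℕ)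
    (hc1 : ∀ s, Function.Injective (c s)) (hc2 : ∀ j, Function.Injective (fun s => c s j))
    {r m : ℕ} {p : Fin N → Fin n → Option ℕ} (hp : Plan A r m p)
    (i : ℕ) (hi : i ≤ r) : ∃ ρ, State A c r p i ρ := by
  classical
  induction i with
  | zero =>
    refine ⟨p, ?_, ?_, ?_, ?_, ?_, ?_⟩
    · intro s j a h; exact h
    · intro s j a h; exact Or.inr h
    · exact hp.row
    · exact hp.col
    · exact hp.sym
    · intro s j _ a ha; omega
  | succ i ih =>
    obtain ⟨ρ, hρ⟩ := ih (by omega)
    have hρi : ∀ s j, ρ s j ≠ some i := by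
      intro s j h
      rcases hρ.lt s j i h with h1 | h1
      · omega
      · have := hp.ge s j i h1; omega
    let U : Finset (Fin N × Fin n) := univ.filter (fun e => ρ e.1 e.2 = none ∧
      ∀ j' b, ρ e.1 j' = some b → A i e.2 ≠ A b j')
    obtain ⟨K, hKU, hK1, hK2, hK3⟩ := exists_kernel c hc1 hc2 U
    have hKn : ∀ s j, (s, j) ∈ K → ρ s j = none := fun s j h =>
      (Finset.mem_filter.1 (hKU h)).2.1
    have hKs : ∀ s j, (s, j) ∈ K → ∀ j' b, ρ s j' = some b → A i j ≠ A b j' := fun s j h =>
      (Finset.mem_filter.1 (hKU h)).2.2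
    have hKp : ∀ s j, (s, j) ∈ K → p s j = none := by
      intro s j h
      rcases hh : p s j with _ | a
      · rfl
      · have := hρ.ext s j a hh
        rw [hKn s j h] at this
        simp at this
    let ρ' : Fin N → Fin n → Option ℕ := fun s j => if (s, j) ∈ K then some i else ρ s j
    have hin : ∀ s j, (s, j) ∈ K → ρ' s j = some i := fun s j h => if_pos h
    have hout : ∀ s j, (s, j) ∉ K → ρ' s j = ρ s j := fun s j h => if_neg h
    have hext : ∀ s j a, ρ s j = some a → ρ' s j = some a := by
      intro s j a h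
      by_cases hk : (s, j) ∈ K
      · rw [hKn s j hk] at h; simp at h
      · rw [hout s j hk]; exact h
    have hcases : ∀ s j a, ρ' s j = some a → ((s, j) ∈ K ∧ a = i) ∨ ((s, j) ∉ K ∧ ρ s j = some a) := by
      intro s j a h
      by_cases hk : (s, j) ∈ K
      · rw [hin s j hk] at h
        exact Or.inl ⟨hk, (Option.some.inj h).symm⟩
      · rw [hout s j hk] at h
        exact Or.inr ⟨hk, h⟩
    refine ⟨ρ', ?_, ?_, ?_, ?_, ?_, ?_⟩
    · intro s j a h
      exact hext s j a (hρ.ext s j a h)
    · intro s j a h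
      rcases hcases s j a h with ⟨hk, rfl⟩ | ⟨_, h'⟩
      · exact Or.inl ⟨Nat.lt_succ_self _, hKp s j hk⟩
      · rcases hρ.lt s j a h' with ⟨h1, h2⟩ | h1
        · exact Or.inl ⟨by omega, h2⟩
        · exact Or.inr h1
    · intro s j j' a h h'
      rcases hcases s j a h with ⟨hk, rfl⟩ | ⟨hk, h1⟩
      · rcases hcases s j' a h' with ⟨hk', _⟩ | ⟨_, h1'⟩
        · exact congrArg Prod.snd (hK1 _ hk _ hk' rfl)
        · exact absurd h1' (hρi s j')
      · rcases hcases s j' a h' with ⟨_, rfl⟩ | ⟨_, h1'⟩
        · exact absurd h1 (hρi s j)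
        · exact hρ.row s j j' a h1 h1'
    · intro s s' j a h h'
      rcases hcases s j a h with ⟨hk, rfl⟩ | ⟨hk, h1⟩
      · rcases hcases s' j a h' with ⟨hk', _⟩ | ⟨_, h1'⟩
        · exact congrArg Prod.fst (hK2 _ hk _ hk' rfl)
        · exact absurd h1' (hρi s' j)
      · rcases hcases s' j a h' with ⟨_, rfl⟩ | ⟨_, h1'⟩
        · exact absurd h1 (hρi s j)
        · exact hρ.col s s' j a h1 h1'
    · intro s j j' a b h h' hA
      rcases hcases s j a h with ⟨hk, rfl⟩ | ⟨hk, h1⟩
      · rcases hcases s j' b h' with ⟨hk', _⟩ | ⟨_, h1'⟩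
        · exact congrArg Prod.snd (hK1 _ hk _ hk' rfl)
        · exact absurd hA (hKs s j hk j' b h1')
      · rcases hcases s j' b h' with ⟨hk', rfl⟩ | ⟨_, h1'⟩
        · exact absurd hA.symm (hKs s j' hk' j a h1)
        · exact hρ.sym s j j' a b h1 h1' hA
    · intro s j h a ha
      have hk : (s, j) ∉ K := by
        intro hk
        rw [hin s j hk] at h
        simp at h
      rw [hout s j hk] at h
      rcases Nat.lt_succ_iff_lt_or_eq.1 ha with ha | rfl
      · rcases hρ.open_ s j h a ha with ⟨j', h1, h2⟩ | ⟨s', h1, h2⟩ | ⟨j', b, h1, h2, h3⟩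
        · exact Or.inl ⟨j', h1, hext _ _ _ h2⟩
        · exact Or.inr (Or.inl ⟨s', h1, hext _ _ _ h2⟩)
        · exact Or.inr (Or.inr ⟨j', b, h1, hext _ _ _ h2, h3⟩)
      · by_cases hU : (s, j) ∈ U
        · rcases hK3 _ hU with h1 | ⟨e', he', h1, h2⟩ | ⟨e', he', h1, h2⟩
          · exact absurd h1 hk
          · refine Or.inl ⟨e'.2, ?_, hin _ _ ?_⟩
            · simp only at h1 h2
              rw [h1] at h2; exact h2
            · simp only at h1
              rw [← h1]; exact he'
          · refine Or.inr (Or.inl ⟨e'.1, ?_, hin _ _ ?_⟩)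
            · simp only at h1 h2
              rw [h1] at h2; exact h2
            · simp only at h1
              rw [← h1]; exact he'
        · have : ¬ ∀ j' b, ρ s j' = some b → A a j ≠ A b j' := by
            intro hall
            exact hU (Finset.mem_filter.2 ⟨Finset.mem_univ _, h, hall⟩)
          push Not at this
          obtain ⟨j', b, h1, h2⟩ := this
          refine Or.inr (Or.inr ⟨j', b, ?_, hext _ _ _ h1, h2⟩)
          rintro rfl
          rw [h] at h1
          simp at h1

/-- The labels `(s + j) mod M`. -/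
theorem exists_labels (N n M : ℕ) (hN : N ≤ M) (hn : n ≤ M) (hM : 0 < M) :
    ∃ c : Fin N → Fin n → ℕ, (∀ s, Function.Injective (c s)) ∧
      (∀ j, Function.Injective (fun s => c s j)) ∧ ∀ s j, c s j < M := by
  refine ⟨fun s j => (s.1 + j.1) % M, ?_, ?_, fun s j => Nat.mod_lt _ hM⟩
  · intro s j j' h
    have h' : s.1 + j.1 ≡ s.1 + j'.1 [MOD M] := h
    have h2 := Nat.ModEq.add_left_cancel' s.1 h'
    exact Fin.ext (Nat.ModEq.eq_of_lt_of_lt h2 (by omega) (by omega))
  · intro j s s' h
    have h' : s.1 + j.1 ≡ s'.1 + j.1 [MOD M] := h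
    have h2 := Nat.ModEq.add_right_cancel' j.1 h'
    exact Fin.ext (Nat.ModEq.eq_of_lt_of_lt h2 (by omega) (by omega))

/-- The main lemma. The rows `0, …, r - 1` are arbitrary, the rows `r, …, m - 1` are equal and have
distinct symbols. Every symbol of a column occurs at most `D` times among the first `r` rows in
every other column. If `N ≥ n` and `r + (m - r) ≥ N + (n - 1) D`, then there are `N` disjoint
transversals. -/
theorem exists_transversals {N n m r D : ℕ} {S : Type*} [DecidableEq S] (A : ℕ → Fin n → S)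
    (hn : n ≤ N) (hrm : r ≤ m)
    (hbase : ∀ a b, r ≤ a → a < m → r ≤ b → b < m → A a = A b)
    (hinj : ∀ a, r ≤ a → a < m → Function.Injective (A a))
    (hD : ∀ j j' : Fin n, j' ≠ j → ∀ b < m, ((range r).filter (fun a => A a j = A b j')).card ≤ D)
    (hm : N + (n - 1) * D ≤ m) :
    ∃ T : Fin N → Fin n → ℕ, (∀ s j, T s j < m) ∧ (∀ s, Function.Injective (T s)) ∧
      (∀ j, Function.Injective (fun s => T s j)) ∧
      ∀ s, Function.Injective (fun j => A (T s j) j) := by
  classical
  rcases Nat.eq_zero_or_pos N with hM0 | hM0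
  · subst hM0
    exact ⟨fun s => s.elim0, fun s => s.elim0, fun s => s.elim0, fun j s => s.elim0,
      fun s => s.elim0⟩
  obtain ⟨c, hc1, hc2, hcM⟩ := exists_labels N n N le_rfl hn hM0
  set Δ : ℕ := N - (m - r) with hΔ
  let p : Fin N → Fin n → Option ℕ := fun s j => if Δ ≤ c s j then some (r + (c s j - Δ)) else none
  have hp1 : ∀ s j a, p s j = some a → Δ ≤ c s j ∧ a = r + (c s j - Δ) := by
    intro s j a h
    by_cases hc : Δ ≤ c s j
    · simp only [p, if_pos hc, Option.some.injEq] at h
      exact ⟨hc, h.symm⟩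
    · simp only [p, if_neg hc] at h
      exact absurd h (by simp)
  have hp2 : ∀ s j, p s j = none → c s j < Δ := by
    intro s j h
    by_contra hc
    simp only [p, if_pos (not_lt.1 hc)] at h
    exact absurd h (by simp)
  have hp : Plan A r m p := by
    refine ⟨?_, ?_, ?_, ?_, ?_⟩
    · intro s j a h
      obtain ⟨h1, h2⟩ := hp1 s j a h
      omega
    · intro s j a h
      obtain ⟨h1, h2⟩ := hp1 s j a h
      have := hcM s j
      omega
    · intro s j j' a h h'
      obtain ⟨h1, h2⟩ := hp1 s j a h
      obtain ⟨h3, h4⟩ := hp1 s j' a h'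
      exact hc1 s (by omega)
    · intro s s' j a h h'
      obtain ⟨h1, h2⟩ := hp1 s j a h
      obtain ⟨h3, h4⟩ := hp1 s' j a h'
      exact hc2 j (by simp only; omega)
    · intro s j j' a b h h' hA
      obtain ⟨h1, h2⟩ := hp1 s j a h
      obtain ⟨h3, h4⟩ := hp1 s j' b h'
      have h5 := hcM s j
      have h6 := hcM s j'
      rw [hbase b a (by omega) (by omega) (by omega) (by omega)] at hA
      exact hinj a (by omega) (by omega) hA
  obtain ⟨ρ, hρ⟩ := exists_state A c hc1 hc2 hp r le_rfl
  have hlt : ∀ s j a, ρ s j = some a → a < m := by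
    intro s j a h
    rcases hρ.lt s j a h with h1 | h1
    · omega
    · exact hp.lt s j a h1
  have hsome : ∀ s j, ∃ a, ρ s j = some a := by
    intro s j
    by_contra hcon
    have hnone : ρ s j = none := by
      rcases h : ρ s j with _ | a
      · rfl
      · exact absurd ⟨a, h⟩ hcon
    have hpn : p s j = none := by
      rcases h : p s j with _ | a
      · rfl
      · exact absurd ⟨a, hρ.ext s j a h⟩ hcon
    have hcj := hp2 s j hpn
    have hopen := hρ.open_ s j hnone
    -- three sets of rows
    let X1 : Finset ℕ := (univ.filter (fun j' => c s j < c s j' ∧ c s j' < Δ)).image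
      (fun j' => (ρ s j').getD 0)
    let X2 : Finset ℕ := (univ.filter (fun s' => c s' j < c s j)).image (fun s' => (ρ s' j).getD 0)
    let X3 : Finset ℕ := (univ.erase j).biUnion (fun j' =>
      (range r).filter (fun a => ∃ b, ρ s j' = some b ∧ A a j = A b j'))
    have hcov : range r ⊆ X1 ∪ (X2 ∪ X3) := by
      intro a ha
      have ha' := Finset.mem_range.1 ha
      rw [Finset.mem_union, Finset.mem_union]
      rcases hopen a ha' with ⟨j', h1, h2⟩ | ⟨s', h1, h2⟩ | ⟨j', b, h1, h2, h3⟩
      · left
        refine Finset.mem_image.2 ⟨j', Finset.mem_filter.2 ⟨Finset.mem_univ _, h1, ?_⟩,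
          by rw [h2]; rfl⟩
        rcases hρ.lt s j' a h2 with h4 | h4
        · exact hp2 s j' h4.2
        · have := hp.ge s j' a h4; omega
      · right; left
        exact Finset.mem_image.2 ⟨s', Finset.mem_filter.2 ⟨Finset.mem_univ _, h1⟩, by rw [h2]; rfl⟩
      · right; right
        refine Finset.mem_biUnion.2 ⟨j', Finset.mem_erase.2 ⟨h1, Finset.mem_univ _⟩, ?_⟩
        exact Finset.mem_filter.2 ⟨ha, b, h2, h3⟩
    have h1 : X1.card ≤ Δ - 1 - c s j := by
      refine Finset.card_image_le.trans ?_
      have : ((univ.filter (fun j' => c s j < c s j' ∧ c s j' < Δ)).image (c s)) ⊆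
          Finset.Ioo (c s j) Δ := by
        intro x hx
        obtain ⟨j', hj', rfl⟩ := Finset.mem_image.1 hx
        exact Finset.mem_Ioo.2 (Finset.mem_filter.1 hj').2
      have h := Finset.card_le_card this
      rw [Finset.card_image_of_injective _ (hc1 s), Nat.card_Ioo] at h
      omega
    have h2 : X2.card ≤ c s j := by
      refine Finset.card_image_le.trans ?_
      have : ((univ.filter (fun s' => c s' j < c s j)).image (fun s' => c s' j)) ⊆
          Finset.range (c s j) := by
        intro x hx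
        obtain ⟨s', hs', rfl⟩ := Finset.mem_image.1 hx
        exact Finset.mem_range.2 (Finset.mem_filter.1 hs').2
      have h := Finset.card_le_card this
      rw [Finset.card_image_of_injective _ (hc2 j), Finset.card_range] at h
      exact h
    have h3 : X3.card ≤ (n - 1) * D := by
      refine Finset.card_biUnion_le.trans ?_
      have : ∀ j' ∈ (univ.erase j : Finset (Fin n)),
          ((range r).filter (fun a => ∃ b, ρ s j' = some b ∧ A a j = A b j')).card ≤ D := by
        intro j' hj'
        rcases h : ρ s j' with _ | b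
        · simp
        · refine le_trans (Finset.card_le_card ?_)
            (hD j j' (Finset.ne_of_mem_erase hj') b (hlt s j' b h))
          intro a ha
          obtain ⟨ha1, b', hb', ha2⟩ := Finset.mem_filter.1 ha
          obtain rfl := Option.some.inj hb'
          exact Finset.mem_filter.2 ⟨ha1, ha2⟩
      refine (Finset.sum_le_sum this).trans ?_
      rw [Finset.sum_const, smul_eq_mul, Finset.card_erase_of_mem (Finset.mem_univ _),
        Finset.card_univ, Fintype.card_fin]
    have h4 := Finset.card_le_card hcov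
    rw [Finset.card_range] at h4
    have h5 := (Finset.card_union_le X1 (X2 ∪ X3)).trans
      (Nat.add_le_add_left (Finset.card_union_le X2 X3) _)
    omega
  choose T hT using hsome
  refine ⟨T, fun s j => hlt s j _ (hT s j), ?_, ?_, ?_⟩
  · intro s j j' h
    exact hρ.row s j j' (T s j) (hT s j) (by rw [hT s j', h])
  · intro j s s' h
    exact hρ.col s s' j (T s j) (hT s j) (by simp only at h; rw [hT s' j, h])
  · intro s j j' h
    exact hρ.sym s j j' _ _ (hT s j) (hT s j') h

end Pool.Agent.Drisko49.Kernel
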