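import Pool.Agent.Drisko49.Basic

/-!
Existence of the least squares minimiser over a pointed cone.
-/

namespace Pool.Agent.Drisko49

open Finset

set_option linter.unusedSectionVars false
set_option linter.unusedVariables false

variable {I D : Type*} [Fintype I] [DecidableEq I] [Fintype D] [DecidableEq D]

lemma dot_sub_le (x y : D → ℝ) :
    dot x x ≤ 2 * dot (fun d => x d - y d) (fun d => x d - y d) + 2 * dot y y := by
  unfold dot
  rw [Finset.mul_sum, Finset.mul_sum, ← Finset.sum_add_distrib]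
  refine Finset.sum_le_sum fun d _ => ?_
  nlinarith [mul_self_nonneg (x d - 2 * y d)]

theorem exists_isOpt (v : I → D → ℝ) (b p : D → ℝ)
    (hker : ∀ (x : I → ℝ) (μ : ℝ), (∀ i, 0 ≤ x i) → (∀ d, ∑ i, x i * v i d = μ * b d) →
      x = 0 ∧ μ = 0) :
    ∃ (x : I → ℝ) (μ : ℝ), IsOpt v b p x μ := by
  classical
  let G : (I → ℝ) × ℝ → ℝ := fun z => dot (resid v b p z.1 z.2) (resid v b p z.1 z.2)
  let N : (I → ℝ) × ℝ → ℝ := fun z => dot (resid v b 0 z.1 z.2) (resid v b 0 z.1 z.2)
  have hGc : Continuous G := by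
    show Continuous fun z : (I → ℝ) × ℝ => ∑ d, _ * _
    unfold resid
    fun_prop
  have hNc : Continuous N := by
    show Continuous fun z : (I → ℝ) × ℝ => ∑ d, _ * _
    unfold resid
    fun_prop
  let K : Set ((I → ℝ) × ℝ) := {z | ∀ i, 0 ≤ z.1 i}
  have hK : IsClosed K := by
    have : K = ⋂ i, {z : (I → ℝ) × ℝ | 0 ≤ z.1 i} := by
      ext z; simp [K]
    rw [this]
    refine isClosed_iInter fun i => ?_
    exact isClosed_le continuous_const (by fun_prop)
  have hKsmul : ∀ z ∈ K, ∀ t : ℝ, 0 ≤ t → t • z ∈ K := by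
    intro z hz t ht i
    show 0 ≤ t * z.1 i
    exact mul_nonneg ht (hz i)
  have hNhom : ∀ (z : (I → ℝ) × ℝ) (t : ℝ), N (t • z) = t ^ 2 * N z := by
    intro z t
    show dot _ _ = t ^ 2 * dot _ _
    have h1 : resid v b 0 (t • z).1 (t • z).2 = fun d => t * resid v b 0 z.1 z.2 d := by
      funext d
      unfold resid
      have h2 : ∑ i, (t • z).1 i * v i d = t * ∑ i, z.1 i * v i d := by
        rw [Finset.mul_sum]
        exact Finset.sum_congr rfl fun i _ => by
          show t * z.1 i * v i d = _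
          ring
      rw [h2]
      show t * z.2 * b d - 0 - _ = t * (z.2 * b d - 0 - _)
      ring
    rw [h1, dot_smul_right, dot_comm, dot_smul_right]
    ring
  -- positivity on the sphere
  have hcomp : IsCompact (K ∩ Metric.sphere (0 : (I → ℝ) × ℝ) 1) :=
    (isCompact_sphere _ _).inter_left hK
  have hne : (K ∩ Metric.sphere (0 : (I → ℝ) × ℝ) 1).Nonempty := by
    refine ⟨(0, 1), ?_, ?_⟩
    · intro i; exact le_refl 0
    · rw [mem_sphere_zero_iff_norm, Prod.norm_def]
      simp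
  obtain ⟨z₀, hz₀, hmin⟩ := hcomp.exists_isMinOn hne hNc.continuousOn
  have hδ : 0 < N z₀ := by
    show 0 < dot _ _
    apply dot_self_pos
    intro hzero
    have h1 : ∀ d, ∑ i, z₀.1 i * v i d = z₀.2 * b d := by
      intro d
      have h2 := congrFun hzero d
      unfold resid at h2
      simp only [Pi.zero_apply] at h2
      linarith
    obtain ⟨h3, h4⟩ := hker z₀.1 z₀.2 hz₀.1 h1
    have h5 : z₀ = 0 := Prod.ext h3 h4
    have h6 := hz₀.2
    rw [h5] at h6
    simp at h6
  have hbound : ∀ z ∈ K, N z₀ * ‖z‖ ^ 2 ≤ N z := by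
    intro z hz
    by_cases hz0 : z = 0
    · rw [hz0, norm_zero]
      have h7 : N (0 : (I → ℝ) × ℝ) = 0 ^ 2 * N 0 := by
        have := hNhom 0 0
        rwa [smul_zero] at this
      rw [h7]; simp
    · have hnz : 0 < ‖z‖ := norm_pos_iff.2 hz0
      have h1 : (‖z‖⁻¹ • z) ∈ K ∩ Metric.sphere (0 : (I → ℝ) × ℝ) 1 := by
        refine ⟨hKsmul z hz _ (inv_nonneg.2 hnz.le), ?_⟩
        rw [mem_sphere_zero_iff_norm, norm_smul, norm_inv, norm_norm,
          inv_mul_cancel₀ hnz.ne']
      have h2 := hmin h1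
      simp only [Set.mem_setOf_eq] at h2
      have h3 : N (‖z‖⁻¹ • z) = (‖z‖⁻¹) ^ 2 * N z := hNhom z _
      have h4 : N z₀ ≤ (‖z‖⁻¹) ^ 2 * N z := by rw [← h3]; exact h2
      calc N z₀ * ‖z‖ ^ 2 ≤ ((‖z‖⁻¹) ^ 2 * N z) * ‖z‖ ^ 2 :=
            mul_le_mul_of_nonneg_right h4 (by positivity)
        _ = N z := by
            field_simp
  -- the sublevel set is compact
  have hSc : IsCompact (K ∩ {z | G z ≤ G 0}) := by
    refine Metric.isCompact_of_isClosed_isBounded
      (hK.inter (isClosed_le hGc continuous_const)) ?_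
    rw [isBounded_iff_forall_norm_le]
    refine ⟨Real.sqrt ((2 * G 0 + 2 * dot p p) / N z₀), ?_⟩
    rintro z ⟨hz, hGz⟩
    apply Real.le_sqrt_of_sq_le
    rw [le_div_iff₀ hδ]
    have h1 : N z ≤ 2 * G z + 2 * dot p p := by
      have h2 := dot_sub_le (resid v b 0 z.1 z.2) p
      have h3 : (fun d => resid v b 0 z.1 z.2 d - p d) = resid v b p z.1 z.2 := by
        funext d
        unfold resid
        simp only [Pi.zero_apply]
        ring
      rw [h3] at h2
      exact h2
    have h4 := hbound z hz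
    have h5 : G z ≤ G 0 := hGz
    linarith
  obtain ⟨z₁, hz₁, hmin₁⟩ := hSc.exists_isMinOn ⟨0, fun i => le_refl 0, le_refl (G 0)⟩
    hGc.continuousOn
  refine ⟨z₁.1, z₁.2, hz₁.1, ?_⟩
  intro x' μ' hx'
  by_cases h : G (x', μ') ≤ G 0
  · exact hmin₁ (show (x', μ') ∈ K ∩ {z | G z ≤ G 0} from ⟨hx', h⟩)
  · push Not at h
    exact (hz₁.2.trans h.le)

end Pool.Agent.Drisko49
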