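import Mathlib

/-!
A real fractional packing can be replaced by an integral packing with multiplicities.
-/

namespace Pool.Agent.Drisko49

open Finset

/-- A finite dimensional `ℚ`-subspace of `ℝ` has a `ℚ`-linear functional to `ℚ` which is positive
on a given finite set of positive elements. -/
lemma exists_rat_functional (U : Submodule ℚ ℝ) [FiniteDimensional ℚ U] (F : Finset U)
    (hF : ∀ u ∈ F, 0 < (u : ℝ)) : ∃ φ : U →ₗ[ℚ] ℚ, ∀ u ∈ F, 0 < φ u := by
  classical
  let b := Module.finBasis ℚ U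
  let K : U → ℝ := fun u => ∑ j, |((b.repr u j : ℚ) : ℝ)|
  have hK : ∀ u, 0 ≤ K u := fun u => Finset.sum_nonneg fun j _ => abs_nonneg _
  obtain ⟨δ, hδ, hδF⟩ : ∃ δ : ℝ, 0 < δ ∧ ∀ u ∈ F, δ * (K u + 1) ≤ (u : ℝ) := by
    rcases F.eq_empty_or_nonempty with h | h
    · exact ⟨1, one_pos, by simp [h]⟩
    · obtain ⟨u₀, hu₀, hmin⟩ := Finset.exists_min_image F (fun u => (u : ℝ) / (K u + 1)) h
      refine ⟨(u₀ : ℝ) / (K u₀ + 1), div_pos (hF u₀ hu₀) (by linarith [hK u₀]), ?_⟩
      intro u hu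
      have h1 := hmin u hu
      rwa [le_div_iff₀ (by linarith [hK u] : (0 : ℝ) < K u + 1)] at h1
  have hq : ∀ j, ∃ q : ℚ, |(q : ℝ) - ((b j : U) : ℝ)| < δ := by
    intro j
    obtain ⟨q, h1, h2⟩ := exists_rat_btwn (show ((b j : U) : ℝ) < ((b j : U) : ℝ) + δ by linarith)
    exact ⟨q, by rw [abs_lt]; constructor <;> linarith⟩
  choose q hq using hq
  refine ⟨b.constr ℚ q, ?_⟩
  intro u hu
  have h1 : (b.constr ℚ q) u = ∑ j, b.repr u j * q j := by
    rw [Module.Basis.constr_apply_fintype]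
    simp [Module.Basis.equivFun_apply]
  have h2 : (u : ℝ) = ∑ j, ((b.repr u j : ℚ) : ℝ) * ((b j : U) : ℝ) := by
    conv_lhs => rw [← b.sum_repr u]
    rw [AddSubmonoidClass.coe_finsetSum]
    refine Finset.sum_congr rfl fun j _ => ?_
    rw [Submodule.coe_smul, Rat.smul_def]
  have h3 : ((b.constr ℚ q u : ℚ) : ℝ) = ∑ j, ((b.repr u j : ℚ) : ℝ) * (q j : ℝ) := by
    rw [h1]; push_cast; rfl
  have h4 : |((b.constr ℚ q u : ℚ) : ℝ) - (u : ℝ)| ≤ δ * K u := by
    rw [h3, h2, ← Finset.sum_sub_distrib]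
    calc |∑ j, (((b.repr u j : ℚ) : ℝ) * (q j : ℝ) - ((b.repr u j : ℚ) : ℝ) * ((b j : U) : ℝ))|
        ≤ ∑ j, |((b.repr u j : ℚ) : ℝ) * (q j : ℝ) - ((b.repr u j : ℚ) : ℝ) * ((b j : U) : ℝ)| :=
          Finset.abs_sum_le_sum_abs _ _
      _ ≤ ∑ j, δ * |((b.repr u j : ℚ) : ℝ)| := by
          refine Finset.sum_le_sum fun j _ => ?_
          rw [← mul_sub, abs_mul, mul_comm δ]
          exact mul_le_mul_of_nonneg_left (hq j).le (abs_nonneg _)
      _ = δ * K u := by rw [Finset.mul_sum]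
  have h5 := hδF u hu
  have h6 := abs_le.1 h4
  have h7 : (0 : ℝ) < ((b.constr ℚ q u : ℚ) : ℝ) := by
    have := h6.1
    nlinarith
  exact_mod_cast h7

/-- From a real fractional packing to an integral packing with multiplicities. -/
theorem exists_multiplicities {V Cell : Type} [Fintype V] [Fintype Cell]
    (inc : V → Cell → Prop) [∀ r c, Decidable (inc r c)] (N : ℕ) (x : V → ℝ) (hx : ∀ r, 0 ≤ x r)
    (hload : ∀ c, ∑ r, (if inc r c then x r else 0) ≤ 1) (hsum : ∑ r, x r = N) :
    ∃ (q : ℕ) (μ : V → ℕ), 1 ≤ q ∧ (∀ c, ∑ r, (if inc r c then μ r else 0) ≤ q) ∧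
      ∑ r, μ r = q * N := by
  classical
  let U : Submodule ℚ ℝ := Submodule.span ℚ (Set.range x ∪ {1})
  have : FiniteDimensional ℚ U := FiniteDimensional.span_of_finite ℚ
    ((Set.finite_range x).union (Set.finite_singleton 1))
  let x' : V → U := fun r => ⟨x r, Submodule.subset_span (Or.inl ⟨r, rfl⟩)⟩
  let one : U := ⟨1, Submodule.subset_span (Or.inr rfl)⟩
  let slack : Cell → U := fun c => one - ∑ r, (if inc r c then x' r else 0)
  have hslack : ∀ c, ((slack c : U) : ℝ) = 1 - ∑ r, (if inc r c then x r else 0) := by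
    intro c
    show (((one - ∑ r, (if inc r c then x' r else 0) : U)) : ℝ) = _
    rw [Submodule.coe_sub, AddSubmonoidClass.coe_finsetSum]
    congr 1
    refine Finset.sum_congr rfl fun r _ => ?_
    split_ifs <;> rfl
  let F : Finset U := (univ.image x' ∪ univ.image slack ∪ {one}).filter fun u => (u : ℝ) ≠ 0
  have hFpos : ∀ u ∈ F, 0 < (u : ℝ) := by
    intro u hu
    rw [Finset.mem_filter] at hu
    obtain ⟨hu, hne⟩ := hu
    have h0 : 0 ≤ (u : ℝ) := by
      simp only [Finset.mem_union, Finset.mem_image, Finset.mem_univ, true_and,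
        Finset.mem_singleton] at hu
      rcases hu with (⟨r, rfl⟩ | ⟨c, rfl⟩) | rfl
      · exact hx r
      · rw [hslack]
        linarith [hload c]
      · exact zero_le_one
    exact lt_of_le_of_ne h0 (Ne.symm hne)
  obtain ⟨φ, hφ⟩ := exists_rat_functional U F hFpos
  have hnn : ∀ u : U, u ∈ (univ.image x' ∪ univ.image slack ∪ {one}) → 0 ≤ φ u := by
    intro u hu
    by_cases hu0 : (u : ℝ) = 0
    · have : u = 0 := Subtype.ext hu0
      rw [this, map_zero]
    · exact (hφ u (Finset.mem_filter.2 ⟨hu, hu0⟩)).le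
  have hy : ∀ r, 0 ≤ φ (x' r) := fun r => hnn _ (by simp)
  have hs : ∀ c, 0 ≤ φ (slack c) := fun c => hnn _ (by simp)
  have hone : 0 < φ one := hφ one (by
    rw [Finset.mem_filter]
    exact ⟨by simp, one_ne_zero⟩)
  have hload' : ∀ c, ∑ r, (if inc r c then φ (x' r) else 0) ≤ φ one := by
    intro c
    have h1 : φ (slack c) = φ one - ∑ r, (if inc r c then φ (x' r) else 0) := by
      show φ (one - ∑ r, (if inc r c then x' r else 0)) = _
      rw [map_sub, map_sum]
      congr 1
      refine Finset.sum_congr rfl fun r _ => ?_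
      split_ifs
      · rfl
      · exact map_zero φ
    have h2 := hs c
    rw [h1] at h2
    linarith
  have hsum' : ∑ r, φ (x' r) = N * φ one := by
    rw [← map_sum]
    have h1 : ∑ r, x' r = (N : ℚ) • one := by
      apply Subtype.ext
      rw [AddSubmonoidClass.coe_finsetSum, Submodule.coe_smul, Rat.smul_def]
      show ∑ r, x r = ((N : ℚ) : ℝ) * 1
      rw [hsum]; push_cast; ring
    rw [h1, map_smul, smul_eq_mul]
  -- clear denominators
  let z : V → ℚ := fun r => φ (x' r) / φ one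
  have hz : ∀ r, 0 ≤ z r := fun r => div_nonneg (hy r) hone.le
  let q : ℕ := ∏ r, (z r).den
  have hq : 0 < q := Finset.prod_pos fun r _ => (z r).den_pos
  have hdvd : ∀ r, (z r).den ∣ q := fun r => Finset.dvd_prod_of_mem _ (Finset.mem_univ r)
  let μ : V → ℕ := fun r => (z r).num.toNat * (q / (z r).den)
  have hμ : ∀ r, (μ r : ℚ) = z r * q := by
    intro r
    obtain ⟨t, ht⟩ := hdvd r
    have h1 : q / (z r).den = t := by
      rw [ht]
      exact Nat.mul_div_cancel_left t (z r).den_pos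
    have h2 : ((z r).num.toNat : ℚ) = ((z r).num : ℚ) := by
      have h3 : (((z r).num.toNat : ℤ)) = (z r).num :=
        Int.toNat_of_nonneg (Rat.num_nonneg.2 (hz r))
      exact_mod_cast h3
    show (((z r).num.toNat * (q / (z r).den) : ℕ) : ℚ) = z r * q
    rw [h1, ht]
    push_cast
    rw [h2]
    have h4 : (z r) * ((z r).den : ℚ) = (z r).num := Rat.mul_den_eq_num (z r)
    rw [← mul_assoc, h4]
  refine ⟨q, μ, hq, ?_, ?_⟩
  · intro c
    have h1 : ((∑ r, (if inc r c then μ r else 0) : ℕ) : ℚ) ≤ q := by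
      push_cast
      have h2 : ∀ r, (if inc r c then (μ r : ℚ) else 0)
          = (if inc r c then φ (x' r) else 0) / φ one * q := by
        intro r
        split_ifs
        · rw [hμ]
        · simp
      rw [Finset.sum_congr rfl fun r _ => h2 r, ← Finset.sum_mul, ← Finset.sum_div]
      have h3 : (∑ r, (if inc r c then φ (x' r) else 0)) / φ one ≤ 1 := by
        rw [div_le_one hone]
        exact hload' c
      calc (∑ r, (if inc r c then φ (x' r) else 0)) / φ one * q ≤ 1 * q :=
            mul_le_mul_of_nonneg_right h3 (Nat.cast_nonneg _)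
        _ = q := one_mul _
    exact_mod_cast h1
  · have h1 : ((∑ r, μ r : ℕ) : ℚ) = ((q * N : ℕ) : ℚ) := by
      push_cast
      rw [Finset.sum_congr rfl fun r _ => hμ r, ← Finset.sum_mul]
      show (∑ r, φ (x' r) / φ one) * (q : ℚ) = q * N
      rw [← Finset.sum_div, hsum', mul_div_assoc, div_self hone.ne']
      ring
    exact_mod_cast h1

end Pool.Agent.Drisko49
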