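import Pool.Agent.Drisko49.Core

/-!
The weighted Drisko theorem for arbitrary real weights, and its consequence for more rows.
-/

namespace Pool.Agent.Drisko49

open Finset

set_option linter.unusedSectionVars false
set_option linter.unusedVariables false

variable {ι J κ : Type} [Fintype ι] [DecidableEq ι] [Fintype J] [DecidableEq J]
  [Fintype κ] [DecidableEq κ]

/-- `r` chooses one cell in every column, in different rows and with different symbols. -/
def Valid (a : ι → J → κ) (r : J → ι) : Prop :=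
  Function.Injective r ∧ Function.Injective (fun j => a (r j) j)

/-- **Weighted Drisko theorem.** For `2n - 1` rows and arbitrary real weights there is a
transversal whose weight is at most `1/n` times the total weight of the rows it uses. -/
theorem weighted_drisko [Nonempty J] (a : ι → J → κ) (ha : ∀ i, Function.Injective (a i))
    (w : ι → J → ℝ) (hcard : Fintype.card ι + 1 = 2 * Fintype.card J) :
    ∃ r : J → ι, Valid a r ∧
      (Fintype.card J : ℝ) * ∑ j, w (r j) j ≤ ∑ j, ∑ j', w (r j) j' := by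
  classical
  set n : ℝ := (Fintype.card J : ℝ) with hn
  have hn0 : 0 < n := by
    rw [hn]
    exact_mod_cast Fintype.card_pos
  let W : ι → ℝ := fun i => ∑ j, w i j
  let dev : ι → J → ℝ := fun i j => w i j - W i / n
  have hdev : ∀ i, ∑ j, dev i j = 0 := by
    intro i
    show ∑ j, (w i j - W i / n) = 0
    rw [Finset.sum_sub_distrib, Finset.sum_const, nsmul_eq_mul, Finset.card_univ, ← hn,
      mul_div_cancel₀ _ hn0.ne']
    exact sub_self _
  let Cst : ℝ := ∑ i, ∑ j, |dev i j|
  have hC : ∀ i j, 0 ≤ dev i j + Cst := by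
    intro i j
    have h1 : |dev i j| ≤ Cst := by
      calc |dev i j| ≤ ∑ j, |dev i j| :=
            Finset.single_le_sum (f := fun j => |dev i j|) (fun j _ => abs_nonneg _)
              (Finset.mem_univ j)
        _ ≤ Cst := Finset.single_le_sum (f := fun i => ∑ j, |dev i j|)
              (fun i _ => Finset.sum_nonneg fun j _ => abs_nonneg _) (Finset.mem_univ i)
    have h2 := neg_abs_le (dev i j)
    linarith
  have hrow : ∀ i, ∑ j, (dev i j + Cst) = n * Cst := by
    intro i
    rw [Finset.sum_add_distrib, hdev, zero_add, Finset.sum_const, nsmul_eq_mul,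
      Finset.card_univ, ← hn]
  have hε : ∀ ε : ℝ, 0 < ε → ∃ r : J → ι, Valid a r ∧ ∑ j, dev (r j) j ≤ ε := by
    intro ε hε
    obtain ⟨r, h1, h2, h3⟩ := good_of_lt (a := a) (w := fun i j => dev i j + Cst)
      (θ := n * Cst + ε) ha hC (fun i => by rw [hrow]; linarith) hcard
    refine ⟨r, ⟨h1, h2⟩, ?_⟩
    rw [Finset.sum_add_distrib, Finset.sum_const, nsmul_eq_mul, Finset.card_univ, ← hn] at h3
    linarith
  obtain ⟨r₀, hr₀, hmin⟩ : ∃ r ∈ (univ.filter fun r : J → ι => Valid a r),
      ∀ r' ∈ (univ.filter fun r : J → ι => Valid a r),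
        ∑ j, dev (r j) j ≤ ∑ j, dev (r' j) j := by
    apply Finset.exists_min_image
    obtain ⟨r, hr, -⟩ := hε 1 one_pos
    exact ⟨r, by simp [hr]⟩
  have hle : ∑ j, dev (r₀ j) j ≤ 0 := by
    by_contra hcon
    push Not at hcon
    obtain ⟨r, hr, h1⟩ := hε ((∑ j, dev (r₀ j) j) / 2) (by linarith)
    have h2 := hmin r (by simp [hr])
    linarith
  refine ⟨r₀, (Finset.mem_filter.1 hr₀).2, ?_⟩
  have h1 : ∑ j, dev (r₀ j) j = ∑ j, w (r₀ j) j - (∑ j, W (r₀ j)) / n := by
    show ∑ j, (w (r₀ j) j - W (r₀ j) / n) = _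
    rw [Finset.sum_sub_distrib, Finset.sum_div]
  rw [h1] at hle
  have h2 : ∑ j, w (r₀ j) j ≤ (∑ j, W (r₀ j)) / n := by linarith
  rw [le_div_iff₀ hn0] at h2
  calc n * ∑ j, w (r₀ j) j = (∑ j, w (r₀ j) j) * n := mul_comm _ _
    _ ≤ ∑ j, W (r₀ j) := h2

/-- For `m ≥ 2n - 1` rows and nonnegative weights there is a transversal whose weight is at most
`1/(m - n + 1)` times the total weight. -/
theorem exists_light [Nonempty J] (a : ι → J → κ) (ha : ∀ i, Function.Injective (a i))
    (w : ι → J → ℝ) (hw : ∀ i j, 0 ≤ w i j) (hcard : 2 * Fintype.card J ≤ Fintype.card ι + 1) :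
    ∃ r : J → ι, Valid a r ∧
      ((Fintype.card ι : ℝ) - Fintype.card J + 1) * ∑ j, w (r j) j ≤ ∑ i, ∑ j, w i j := by
  classical
  have hJ : 0 < Fintype.card J := Fintype.card_pos
  let W : ι → ℝ := fun i => ∑ j, w i j
  have hW : ∀ i, 0 ≤ W i := fun i => Finset.sum_nonneg fun j _ => hw i j
  obtain ⟨S, hS, hSmin⟩ : ∃ S ∈ Finset.powersetCard (2 * Fintype.card J - 1) (univ : Finset ι),
      ∀ S' ∈ Finset.powersetCard (2 * Fintype.card J - 1) (univ : Finset ι),
        ∑ i ∈ S, W i ≤ ∑ i ∈ S', W i := by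
    apply Finset.exists_min_image
    apply Finset.powersetCard_nonempty.2
    rw [Finset.card_univ]
    omega
  have hScard : S.card = 2 * Fintype.card J - 1 := (Finset.mem_powersetCard.1 hS).2
  have hswap : ∀ i, i ∉ S → ∀ i' ∈ S, W i' ≤ W i := by
    intro i hi i' hi'
    have h1 : insert i (S.erase i') ∈
        Finset.powersetCard (2 * Fintype.card J - 1) (univ : Finset ι) := by
      rw [Finset.mem_powersetCard]
      refine ⟨Finset.subset_univ _, ?_⟩
      rw [Finset.card_insert_of_notMem (fun h => hi (Finset.mem_of_mem_erase h)),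
        Finset.card_erase_of_mem hi', hScard]
      have : 0 < S.card := Finset.card_pos.2 ⟨i', hi'⟩
      omega
    have h2 := hSmin _ h1
    rw [Finset.sum_insert (fun h => hi (Finset.mem_of_mem_erase h))] at h2
    have h3 := Finset.add_sum_erase S W hi'
    linarith
  obtain ⟨r, hr, hrw⟩ := weighted_drisko (ι := {i // i ∈ S}) (fun i j => a i.1 j)
    (fun i => ha i.1) (fun i j => w i.1 j) (by
      rw [Fintype.card_coe, hScard]
      omega)
  refine ⟨fun j => (r j).1, ⟨fun j j' h => hr.1 (Subtype.ext h), hr.2⟩, ?_⟩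
  set n : ℝ := (Fintype.card J : ℝ) with hn
  have hn0 : 0 < n := by rw [hn]; exact_mod_cast hJ
  set X : ℝ := ∑ j, W (r j).1 with hX
  set T : ℝ := ∑ j, w (r j).1 j with hT
  have h1 : n * T ≤ X := hrw
  have hX0 : 0 ≤ X := Finset.sum_nonneg fun j _ => hW _
  -- rows outside `S`
  have h2 : ∀ i, i ∉ S → X ≤ n * W i := by
    intro i hi
    calc X ≤ ∑ _j : J, W i := Finset.sum_le_sum fun j _ => hswap i hi (r j).1 (r j).2
      _ = n * W i := by rw [Finset.sum_const, nsmul_eq_mul, Finset.card_univ]
  have h3 : X ≤ ∑ i ∈ S, W i := by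
    have : X = ∑ i ∈ univ.image (fun j => (r j).1), W i :=
      (Finset.sum_image (f := W) fun j _ j' _ h => hr.1 (Subtype.ext h)).symm
    rw [this]
    refine Finset.sum_le_sum_of_subset_of_nonneg ?_ fun i _ _ => hW i
    intro i hi
    obtain ⟨j, -, rfl⟩ := Finset.mem_image.1 hi
    exact (r j).2
  have h4 : ((Sᶜ.card : ℕ) : ℝ) * X ≤ n * ∑ i ∈ Sᶜ, W i := by
    calc ((Sᶜ.card : ℕ) : ℝ) * X = ∑ i ∈ Sᶜ, X := by rw [Finset.sum_const, nsmul_eq_mul]
      _ ≤ ∑ i ∈ Sᶜ, n * W i := Finset.sum_le_sum fun i hi => h2 i (Finset.mem_compl.1 hi)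
      _ = n * ∑ i ∈ Sᶜ, W i := by rw [Finset.mul_sum]
  have h5 : ∑ i, W i = ∑ i ∈ S, W i + ∑ i ∈ Sᶜ, W i := (Finset.sum_add_sum_compl S W).symm
  have h6 : ((Sᶜ.card : ℕ) : ℝ) = (Fintype.card ι : ℝ) - 2 * n + 1 := by
    have h7 : Sᶜ.card + 2 * Fintype.card J = Fintype.card ι + 1 := by
      rw [Finset.card_compl, hScard]
      omega
    have h8 : ((Sᶜ.card : ℕ) : ℝ) + 2 * n = (Fintype.card ι : ℝ) + 1 := by
      rw [hn]; exact_mod_cast h7
    linarith
  have h7 : ((Fintype.card ι : ℝ) - n + 1) * X ≤ n * ∑ i, W i := by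
    rw [h6] at h4
    rw [h5, mul_add]
    nlinarith
  have hm : 0 ≤ (Fintype.card ι : ℝ) - n + 1 := by
    have : ((Sᶜ.card : ℕ) : ℝ) ≥ 0 := Nat.cast_nonneg _
    rw [h6] at this
    linarith
  have h8 : n * (((Fintype.card ι : ℝ) - n + 1) * T) ≤ n * ∑ i, W i := by
    calc n * (((Fintype.card ι : ℝ) - n + 1) * T)
        = ((Fintype.card ι : ℝ) - n + 1) * (n * T) := by ring
      _ ≤ ((Fintype.card ι : ℝ) - n + 1) * X := mul_le_mul_of_nonneg_left h1 hm
      _ ≤ n * ∑ i, W i := h7
  exact le_of_mul_le_mul_left h8 hn0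

open Classical in
/-- Fractional packing of transversals. -/
theorem exists_fractional [Nonempty J] (a : ι → J → κ) (ha : ∀ i, Function.Injective (a i))
    (hcard : 2 * Fintype.card J ≤ Fintype.card ι + 1) :
    ∃ x : {r : J → ι // Valid a r} → ℝ, (∀ r, 0 ≤ x r) ∧
      (∀ i j, ∑ r, (if r.1 j = i then x r else 0) ≤ 1) ∧
      ∑ r, x r = (Fintype.card ι : ℝ) - Fintype.card J + 1 := by
  classical
  set N : ℝ := (Fintype.card ι : ℝ) - Fintype.card J + 1 with hN
  have hJ : 0 < Fintype.card J := Fintype.card_pos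
  have hN0 : 0 < N := by
    have h1 : (2 * Fintype.card J : ℝ) ≤ (Fintype.card ι : ℝ) + 1 := by exact_mod_cast hcard
    have h2 : (0 : ℝ) < Fintype.card J := by exact_mod_cast hJ
    rw [hN]; linarith
  let V := {r : J → ι // Valid a r}
  let ind : V → (ι × J → ℝ) := fun r c => if r.1 c.2 = c.1 then 1 else 0
  let Φ : (V → ℝ) →ₗ[ℝ] (ι × J → ℝ) :=
    { toFun := fun lam c => ∑ r, lam r * ind r c
      map_add' := by
        intro x y
        funext c
        simp only [Pi.add_apply, add_mul, Finset.sum_add_distrib]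
      map_smul' := by
        intro t x
        funext c
        simp only [Pi.smul_apply, smul_eq_mul, RingHom.id_apply, Finset.mul_sum, mul_assoc] }
  let C : Set (ι × J → ℝ) := Φ '' stdSimplex ℝ V
  let Dd : Set (ι × J → ℝ) := {z | ∀ c, z c ≤ 1 / N}
  have hCconv : Convex ℝ C := (convex_stdSimplex ℝ V).linear_image Φ
  have hCcomp : IsCompact C :=
    (isCompact_stdSimplex ℝ V).image (LinearMap.continuous_of_finiteDimensional Φ)
  have hDconv : Convex ℝ Dd := by
    intro z hz z' hz' s t hs ht hst c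
    show s * z c + t * z' c ≤ 1 / N
    calc s * z c + t * z' c ≤ s * (1 / N) + t * (1 / N) :=
          add_le_add (mul_le_mul_of_nonneg_left (hz c) hs) (mul_le_mul_of_nonneg_left (hz' c) ht)
      _ = 1 / N := by rw [← add_mul, hst, one_mul]
  have hDclosed : IsClosed Dd := by
    have : Dd = ⋂ c, {z : ι × J → ℝ | z c ≤ 1 / N} := by
      ext z; simp [Dd]
    rw [this]
    exact isClosed_iInter fun c => isClosed_le (continuous_apply c) continuous_const
  have hmeet : ¬ Disjoint C Dd := by
    intro hdis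
    obtain ⟨f, u, v, hfC, huv, hfD⟩ :=
      geometric_hahn_banach_compact_closed hCconv hCcomp hDconv hDclosed hdis
    have hf : ∀ z : ι × J → ℝ, f z = ∑ c, z c * f (Pi.single c 1) := by
      intro z
      have h1 : z = ∑ c, z c • (Pi.single c (1 : ℝ) : ι × J → ℝ) := by
        funext c'
        rw [Finset.sum_apply]
        simp [Pi.single_apply]
      conv_lhs => rw [h1]
      rw [map_sum]
      exact Finset.sum_congr rfl fun c _ => by rw [map_smul, smul_eq_mul]
    -- the coefficients are nonpositive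
    have hfc : ∀ c, f (Pi.single c 1) ≤ 0 := by
      intro c
      by_contra hcon
      push Not at hcon
      -- a very negative multiple
      set q := f (Pi.single c 1) with hq
      have h1 : (fun c' => if c' = c then (v - 1) / q - |(v - 1) / q| - |1 / N| else 0 : ι × J → ℝ)
          ∈ Dd := by
        intro c'
        have hpos : (0 : ℝ) ≤ 1 / N := by positivity
        show (if c' = c then (v - 1) / q - |(v - 1) / q| - |1 / N| else 0) ≤ 1 / N
        split_ifs
        · have h2 := le_abs_self ((v - 1) / q)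
          have h3 := abs_nonneg (1 / N)
          linarith
        · exact hpos
      have h2 := hfD _ h1
      rw [hf] at h2
      have h3 : ∑ c', (if c' = c then (v - 1) / q - |(v - 1) / q| - |1 / N| else 0)
          * f (Pi.single c' 1) = ((v - 1) / q - |(v - 1) / q| - |1 / N|) * q := by
        have h4 : ∀ c', (if c' = c then (v - 1) / q - |(v - 1) / q| - |1 / N| else 0)
            * f (Pi.single c' 1)
            = if c' = c then ((v - 1) / q - |(v - 1) / q| - |1 / N|) * f (Pi.single c' 1)
              else 0 := by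
          intro c'
          split_ifs <;> ring
        rw [Finset.sum_congr rfl fun c' _ => h4 c', Finset.sum_ite_eq' Finset.univ c]
        simp [hq]
      rw [h3] at h2
      have h5 : ((v - 1) / q - |(v - 1) / q| - |1 / N|) * q ≤ (v - 1) / q * q := by
        apply mul_le_mul_of_nonneg_right _ hcon.le
        have h6 := abs_nonneg ((v - 1) / q)
        have h7 := abs_nonneg (1 / N)
        linarith
      rw [div_mul_cancel₀ _ hcon.ne'] at h5
      linarith
    obtain ⟨r, hr, hrw⟩ := exists_light a ha (fun i j => - f (Pi.single (i, j) 1))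
      (fun i j => by have := hfc (i, j); linarith) hcard
    -- the value at the transversal
    have h1 : ∑ j, - f (Pi.single (r j, j) 1) = - f (ind ⟨r, hr⟩) := by
      rw [hf, ← Finset.sum_neg_distrib, Fintype.sum_prod_type_right]
      refine Finset.sum_congr rfl fun j _ => ?_
      have h2 : ∀ i, - (ind ⟨r, hr⟩ (i, j) * f (Pi.single (i, j) 1))
          = if r j = i then - f (Pi.single (i, j) 1) else 0 := by
        intro i
        show - ((if r j = i then (1 : ℝ) else 0) * _) = _
        split_ifs <;> ring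
      rw [Finset.sum_congr rfl fun i _ => h2 i, Finset.sum_ite_eq Finset.univ (r j)]
      simp
    have h3 : f (ind ⟨r, hr⟩) < u := by
      apply hfC
      refine ⟨Pi.single ⟨r, hr⟩ 1, ?_, ?_⟩
      · exact single_mem_stdSimplex ℝ _
      · funext c
        show ∑ r', (Pi.single (⟨r, hr⟩ : V) (1 : ℝ) : V → ℝ) r' * ind r' c = _
        rw [Finset.sum_eq_single (⟨r, hr⟩ : V)]
        · simp
        · intro r' _ hne
          rw [Pi.single_eq_of_ne hne, zero_mul]
        · intro h; exact absurd (Finset.mem_univ _) h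
    have h4 : v < f (fun _ => 1 / N) := hfD _ (fun c => le_refl _)
    rw [hf, ← Finset.mul_sum] at h4
    have h5 : ∑ i, ∑ j, - f (Pi.single (i, j) 1) = - ∑ c, f (Pi.single c 1) := by
      rw [Fintype.sum_prod_type, ← Finset.sum_neg_distrib]
      exact Finset.sum_congr rfl fun i _ => by rw [Finset.sum_neg_distrib]
    rw [h1, h5] at hrw
    have h6 : 1 / N * ∑ c, f (Pi.single c 1) ≤ f (ind ⟨r, hr⟩) := by
      rw [div_mul_eq_mul_div, one_mul, div_le_iff₀ hN0]
      nlinarith
    linarith
  rw [Set.not_disjoint_iff] at hmeet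
  obtain ⟨z, ⟨lam, hlam, rfl⟩, hz⟩ := hmeet
  refine ⟨fun r => N * lam r, fun r => mul_nonneg hN0.le (hlam.1 r), ?_, ?_⟩
  · intro i j
    have h1 := hz (i, j)
    have h2 : Φ lam (i, j) = ∑ r, (if r.1 j = i then lam r else 0) := by
      show ∑ r, lam r * (if r.1 j = i then (1 : ℝ) else 0) = _
      exact Finset.sum_congr rfl fun r _ => by split_ifs <;> ring
    rw [h2] at h1
    have h3 : ∑ r : V, (if r.1 j = i then N * lam r else 0)
        = N * ∑ r : V, (if r.1 j = i then lam r else 0) := by
      rw [Finset.mul_sum]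
      exact Finset.sum_congr rfl fun r _ => by split_ifs <;> ring
    rw [h3]
    calc N * ∑ r : V, (if r.1 j = i then lam r else 0) ≤ N * (1 / N) :=
          mul_le_mul_of_nonneg_left h1 hN0.le
      _ = 1 := by field_simp
  · rw [← Finset.mul_sum, hlam.2, mul_one]

end Pool.Agent.Drisko49
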